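import Mathlib

open MeasureTheory Set Metric Filter Topology

set_option linter.unusedSectionVars false

namespace Pool.Agent.H86

lemma exists_det_interp (n : ℕ) (t : Fin (n+1) → ℝ) (ht : Function.Injective t) :
    ∃ c : Fin (n+1) → ℝ, (∑ i, c i = 1) ∧ ∀ M : Matrix (Fin n) (Fin n) ℝ,
      (1 + M).det = ∑ i, c i * (1 + t i • M).det := by
  classical
  refine ⟨fun i => (Lagrange.basis Finset.univ t i).eval 1, ?_, fun M => ?_⟩
  · have h := Lagrange.sum_basis (s := Finset.univ) (v := t) ht.injOn Finset.univ_nonempty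
    have h2 := congrArg (Polynomial.eval 1) h
    rw [Polynomial.eval_finsetSum] at h2
    simpa using h2
  · set p : Polynomial ℝ := ((Polynomial.X : Polynomial ℝ) • M.map ⇑(Polynomial.C : ℝ →+* Polynomial ℝ)
      + (1 : Matrix (Fin n) (Fin n) ℝ).map ⇑(Polynomial.C : ℝ →+* Polynomial ℝ)).det with hp
    have hdeg : p.natDegree ≤ n := by
      have := Polynomial.natDegree_det_X_add_C_le M (1 : Matrix (Fin n) (Fin n) ℝ)
      rwa [Fintype.card_fin] at this
    have hdeg' : p.degree < ((Finset.univ : Finset (Fin (n+1))).card : WithBot ℕ) := by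
      rw [Finset.card_univ, Fintype.card_fin]
      exact lt_of_le_of_lt Polynomial.degree_le_natDegree (by exact_mod_cast Nat.lt_succ_of_le hdeg)
    have hev : ∀ s : ℝ, p.eval s = (1 + s • M).det := by
      intro s
      rw [hp, ← Polynomial.coe_evalRingHom, RingHom.map_det]
      congr 1
      ext i j
      simp [Matrix.one_apply, add_comm]
      split_ifs <;> simp [mul_comm]
    have h := Lagrange.eq_interpolate_of_eval_eq (s := Finset.univ) (v := t)
      (fun i => p.eval (t i)) ht.injOn hdeg' (fun i _ => rfl)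
    have h1 : p.eval 1 = ∑ i, p.eval (t i) * (Lagrange.basis Finset.univ t i).eval 1 := by
      conv_lhs => rw [h]
      rw [Lagrange.interpolate_apply, Polynomial.eval_finsetSum]
      simp
    rw [hev] at h1
    simp only [one_smul] at h1
    rw [h1]
    refine Finset.sum_congr rfl fun i _ => ?_
    rw [hev, mul_comm]

variable {E : Type*} [NormedAddCommGroup E] [InnerProductSpace ℝ E] [FiniteDimensional ℝ E]

lemma exists_det_interp' (t : Fin (Module.finrank ℝ E + 1) → ℝ) (ht : Function.Injective t) :
    ∃ c : Fin (Module.finrank ℝ E + 1) → ℝ, (∑ i, c i = 1) ∧ ∀ A : E →L[ℝ] E,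
      (1 + A).det = ∑ i, c i * (1 + t i • A).det := by
  obtain ⟨c, hc, h⟩ := exists_det_interp _ t ht
  refine ⟨c, hc, fun A => ?_⟩
  let b := Module.finBasis ℝ E
  have key : ∀ s : ℝ, (1 + s • A).det = (1 + s • (LinearMap.toMatrix b b (A : E →ₗ[ℝ] E))).det := by
    intro s
    have h1 : ((1 + s • A : E →L[ℝ] E) : E →ₗ[ℝ] E) = 1 + s • (A : E →ₗ[ℝ] E) := by
      ext x; simp
    rw [ContinuousLinearMap.det, h1, ← LinearMap.det_toMatrix b]
    congr 1
    rw [map_add, map_smul]
    congr 1
    exact LinearMap.toMatrix_one b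
  have h1 := key 1
  rw [one_smul, one_smul] at h1
  rw [h1, h]
  refine Finset.sum_congr rfl fun i _ => ?_
  rw [key]



lemma lip_ext (g : E → E) (L : NNReal) (hL : LipschitzOnWith L g (closedBall 0 1))
    (hS : ∀ x, ‖x‖ = 1 → g x = 0) :
    LipschitzWith L (fun x => if ‖x‖ ≤ 1 then g x else 0) := by
  have key : ∀ x y : E, ‖x‖ ≤ 1 → 1 < ‖y‖ → dist (g x) 0 ≤ L * dist x y := by
    intro x y hx hy
    have hcont : ContinuousOn (fun s : ℝ => ‖x + s • (y - x)‖) (Icc 0 1) := by fun_prop
    have h01 : (1 : ℝ) ∈ Icc (‖x + (0:ℝ) • (y - x)‖) (‖x + (1:ℝ) • (y - x)‖) := by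
      simp; exact ⟨hx, hy.le⟩
    obtain ⟨s, hs, hs1⟩ := intermediate_value_Icc zero_le_one hcont h01
    set z := x + s • (y - x) with hz
    have hz1 : ‖z‖ = 1 := hs1
    have hxz : dist x z ≤ dist x y := by
      rw [dist_comm, dist_eq_norm, hz, dist_comm, dist_eq_norm]
      simp only [add_sub_cancel_left, norm_smul, Real.norm_eq_abs, abs_of_nonneg hs.1]
      exact mul_le_of_le_one_left (norm_nonneg _) hs.2
    calc dist (g x) 0 = dist (g x) (g z) := by rw [hS z hz1]
      _ ≤ L * dist x z := hL.dist_le_mul x (by simpa using hx) z (by simp [hz1])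
      _ ≤ L * dist x y := by gcongr
  refine LipschitzWith.of_dist_le_mul fun x y => ?_
  by_cases hx : ‖x‖ ≤ 1 <;> by_cases hy : ‖y‖ ≤ 1
  · simp only [hx, hy, if_true]
    exact hL.dist_le_mul x (by simpa using hx) y (by simpa using hy)
  · simp only [hx, hy, if_true, if_false]
    exact key x y hx (not_le.1 hy)
  · simp only [hx, hy, if_true, if_false]
    rw [dist_comm, dist_comm x y]
    exact key y x hy (not_le.1 hx)
  · simp only [hx, hy, if_false, dist_self]
    positivity

lemma image_ball_eq (g : E → E) (L : NNReal) (hL : LipschitzOnWith L g (closedBall 0 1))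
    (hS : ∀ x, ‖x‖ = 1 → g x = 0) (hB : ∀ x, ‖x‖ ≤ 1 → ‖x + g x‖ ≤ 1)
    (t : ℝ) (ht0 : 0 ≤ t) (ht1 : t ≤ 1) (htL : t * L < 1) :
    (fun x => x + t • g x) '' closedBall 0 1 = closedBall 0 1 ∧
      InjOn (fun x => x + t • g x) (closedBall 0 1) := by
  constructor
  · apply Subset.antisymm
    · rintro _ ⟨x, hx, rfl⟩
      rw [mem_closedBall_zero_iff] at hx ⊢
      have : x + t • g x = (1 - t) • x + t • (x + g x) := by
        rw [sub_smul, one_smul, smul_add]; abel
      simp only
      rw [this]
      calc ‖(1 - t) • x + t • (x + g x)‖ ≤ ‖(1 - t) • x‖ + ‖t • (x + g x)‖ := norm_add_le _ _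
        _ = (1 - t) * ‖x‖ + t * ‖x + g x‖ := by
          rw [norm_smul, norm_smul, Real.norm_eq_abs, Real.norm_eq_abs,
            abs_of_nonneg (by linarith), abs_of_nonneg ht0]
        _ ≤ (1 - t) * 1 + t * 1 := by
          have := hB x hx
          gcongr
        _ = 1 := by ring
    · intro y hy
      rw [mem_closedBall_zero_iff] at hy
      set g0 : E → E := fun x => if ‖x‖ ≤ 1 then g x else 0 with hg0
      have hlip := lip_ext g L hL hS
      have hc : ContractingWith (Real.toNNReal t * L) (fun x => y - t • g0 x) := by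
        refine ⟨?_, ?_⟩
        · rw [← NNReal.coe_lt_coe]
          simpa [Real.coe_toNNReal _ ht0] using htL
        · refine LipschitzWith.of_dist_le_mul fun a b => ?_
          rw [dist_sub_left, dist_smul₀, Real.norm_eq_abs, abs_of_nonneg ht0]
          have := hlip.dist_le_mul a b
          simp only [NNReal.coe_mul, Real.coe_toNNReal _ ht0]
          rw [mul_assoc]
          gcongr
      have hfix := hc.fixedPoint_isFixedPt
      set x := hc.fixedPoint with hx
      have hfx : y - t • g0 x = x := hfix
      by_cases hx1 : ‖x‖ ≤ 1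
      · refine ⟨x, by simpa using hx1, ?_⟩
        have : g0 x = g x := by simp [hg0, hx1]
        simp only
        rw [← this]
        exact (sub_eq_iff_eq_add.1 hfx).symm
      · exfalso
        have : g0 x = 0 := by simp [hg0, hx1]
        rw [this, smul_zero, sub_zero] at hfx
        exact hx1 (hfx ▸ hy)
  · intro x hx y hy hxy
    simp only at hxy
    have h1 : x - y = t • (g y - g x) := by
      rw [smul_sub]
      have := hxy
      rw [← sub_eq_zero] at this ⊢
      rw [← this]; abel
    have h2 : dist x y ≤ t * L * dist x y := by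
      calc dist x y = ‖t • (g y - g x)‖ := by rw [dist_eq_norm, h1]
        _ = t * dist (g x) (g y) := by
          rw [norm_smul, Real.norm_eq_abs, abs_of_nonneg ht0, dist_comm, dist_eq_norm]
        _ ≤ t * (L * dist x y) := by
          have := hL.dist_le_mul x hx y hy
          gcongr
        _ = t * L * dist x y := by ring
    have h3 : dist x y = 0 := by
      by_contra hne
      have hpos : 0 < dist x y := lt_of_le_of_ne dist_nonneg (Ne.symm hne)
      nlinarith
    exact dist_eq_zero.1 h3


/-- Volume lemma: a `C^1` displacement `g` of the closed unit ball, vanishing on the unit sphere and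
keeping the ball inside itself, has Jacobian integral equal to the volume of the ball. -/
lemma integral_det_eq_vol [MeasurableSpace E] [BorelSpace E]
    (g : E → E) (hg : ContDiff ℝ 1 g) (hS : ∀ x, ‖x‖ = 1 → g x = 0)
    (hB : ∀ x, ‖x‖ ≤ 1 → ‖x + g x‖ ≤ 1) :
    ∫ x in closedBall (0 : E) 1, (1 + fderiv ℝ g x).det ∂volume
      = (volume (closedBall (0 : E) 1)).toReal := by
  have hcd : Continuous (fderiv ℝ g) := hg.continuous_fderiv one_ne_zero
  have hcomp : IsCompact (closedBall (0 : E) 1) := isCompact_closedBall 0 1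
  -- Lipschitz constant
  obtain ⟨C, hC⟩ := hcomp.exists_bound_of_continuousOn hcd.continuousOn
  set L : NNReal := Real.toNNReal C with hLdef
  have hL : LipschitzOnWith L g (closedBall 0 1) := by
    refine Convex.lipschitzOnWith_of_nnnorm_fderiv_le (𝕜 := ℝ)
      (fun x _ => hg.differentiable one_ne_zero x) (fun x hx => ?_) (convex_closedBall 0 1)
    rw [← NNReal.coe_le_coe, coe_nnnorm]
    exact (hC x hx).trans (Real.le_coe_toNNReal C)
  -- positivity of the determinant for small t
  have hdetc : Continuous fun p : ℝ × E => (1 + p.1 • fderiv ℝ g p.2).det := by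
    have : Continuous fun p : ℝ × E => (1 + p.1 • fderiv ℝ g p.2 : E →L[ℝ] E) := by fun_prop
    exact ContinuousLinearMap.continuous_det.comp this
  have hpos : ∀ᶠ t in 𝓝 (0 : ℝ), ∀ x ∈ closedBall (0 : E) 1, 0 < (1 + t • fderiv ℝ g x).det := by
    refine hcomp.eventually_forall_of_forall_eventually fun x _ => ?_
    have h0 : (0 : ℝ) < (1 + (0 : ℝ) • fderiv ℝ g x).det := by
      rw [zero_smul, add_zero, ContinuousLinearMap.det]
      simp
    exact (hdetc.continuousAt (x := ((0 : ℝ), x))).eventually (lt_mem_nhds h0)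
  obtain ⟨δ₁, hδ₁, hδ⟩ := Metric.eventually_nhds_iff.1 hpos
  set δ : ℝ := min (min δ₁ 1) (1 / (L + 1)) with hδdef
  have hδpos : 0 < δ := by positivity
  -- the equality for small t
  have hsmall : ∀ t : ℝ, 0 < t → t < δ →
      ∫ x in closedBall (0 : E) 1, (1 + t • fderiv ℝ g x).det ∂volume
      = (volume (closedBall (0 : E) 1)).toReal := by
    intro t ht0 htδ
    have ht1 : t ≤ 1 := by
      have := (min_le_left (min δ₁ 1) (1 / ((L : ℝ) + 1))).trans (min_le_right _ _)
      linarith
    have htδ1 : t < δ₁ := by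
      have := (min_le_left (min δ₁ 1) (1 / ((L : ℝ) + 1))).trans (min_le_left _ _)
      linarith
    have htL : t * L < 1 := by
      have h1 : t < 1 / ((L : ℝ) + 1) := lt_of_lt_of_le htδ (min_le_right _ _)
      rw [lt_div_iff₀ (by positivity)] at h1
      nlinarith
    obtain ⟨him, hinj⟩ := image_ball_eq g L hL hS hB t ht0.le ht1 htL
    have hder : ∀ x ∈ closedBall (0 : E) 1, HasFDerivWithinAt (fun x => x + t • g x)
        (1 + t • fderiv ℝ g x) (closedBall 0 1) x := by
      intro x _
      have h1 : HasFDerivAt g (fderiv ℝ g x) x := (hg.differentiable one_ne_zero x).hasFDerivAt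
      exact ((hasFDerivAt_id x).add (h1.const_smul t)).hasFDerivWithinAt
    have hvol := lintegral_abs_det_fderiv_eq_addHaar_image volume measurableSet_closedBall hder hinj
    rw [him] at hvol
    have hpos' : ∀ x ∈ closedBall (0 : E) 1, 0 < (1 + t • fderiv ℝ g x).det :=
      hδ (by simpa [abs_of_pos ht0] using htδ1)
    rw [← hvol, integral_eq_lintegral_of_nonneg_ae]
    · congr 1
      refine setLIntegral_congr_fun measurableSet_closedBall fun x hx => ?_
      rw [abs_of_pos (hpos' x hx)]
    · filter_upwards [ae_restrict_mem measurableSet_closedBall] with x hx using (hpos' x hx).le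
    · have : Continuous fun x : E => (1 + t • fderiv ℝ g x).det :=
        hdetc.comp (Continuous.prodMk continuous_const continuous_id)
      exact this.aestronglyMeasurable
  -- interpolation
  let t : Fin (Module.finrank ℝ E + 1) → ℝ := fun i => δ / ((i : ℕ) + 2)
  have htinj : Function.Injective t := by
    intro i j hij
    have h1 : δ / (((i : ℕ) : ℝ) + 2) = δ / (((j : ℕ) : ℝ) + 2) := hij
    rw [div_eq_div_iff (by positivity) (by positivity)] at h1
    have h2 : (((j : ℕ) : ℝ) + 2) = (((i : ℕ) : ℝ) + 2) := mul_left_cancel₀ hδpos.ne' h1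
    have h3 : ((j : ℕ) : ℝ) = ((i : ℕ) : ℝ) := by linarith
    exact Fin.ext (by exact_mod_cast h3.symm)
  obtain ⟨c, hc, hcM⟩ := exists_det_interp' (E := E) t htinj
  have hint : ∀ s : ℝ, Integrable (fun x : E => (1 + s • fderiv ℝ g x).det)
      (volume.restrict (closedBall (0 : E) 1)) := by
    intro s
    have : Continuous fun x : E => (1 + s • fderiv ℝ g x).det :=
      hdetc.comp (Continuous.prodMk continuous_const continuous_id)
    exact this.continuousOn.integrableOn_compact hcomp
  calc ∫ x in closedBall (0 : E) 1, (1 + fderiv ℝ g x).det ∂volume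
      = ∫ x in closedBall (0 : E) 1, ∑ i, c i * (1 + t i • fderiv ℝ g x).det ∂volume :=
        integral_congr_ae (Eventually.of_forall fun x => hcM (fderiv ℝ g x))
    _ = ∑ i, ∫ x in closedBall (0 : E) 1, c i * (1 + t i • fderiv ℝ g x).det ∂volume :=
        integral_finsetSum _ fun i _ => (hint (t i)).const_mul _
    _ = ∑ i, c i * (volume (closedBall (0 : E) 1)).toReal := by
        refine Finset.sum_congr rfl fun i _ => ?_
        rw [integral_const_mul, hsmall (t i)]
        · simp only [t]; positivity
        · simp only [t]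
          rw [div_lt_iff₀ (by positivity)]
          have : (0 : ℝ) ≤ ((i : ℕ) : ℝ) := by positivity
          nlinarith
    _ = (volume (closedBall (0 : E) 1)).toReal := by
        rw [← Finset.sum_mul, hc, one_mul]

lemma no_contDiff_retraction (r : E → E) (hr : ContDiff ℝ 1 r) (h1 : ∀ x, ‖r x‖ = 1)
    (hS : ∀ x, ‖x‖ = 1 → r x = x) : False := by
  let _ : MeasurableSpace E := borel E
  have _ : BorelSpace E := ⟨rfl⟩
  have hvol := integral_det_eq_vol (fun x => r x - x) (hr.sub contDiff_id)
    (fun x hx => by simp [hS x hx]) (fun x _ => by simp [h1 x])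
  have hdet : ∀ x, (1 + fderiv ℝ (fun x => r x - x) x).det = 0 := by
    intro x
    have hdr : DifferentiableAt ℝ r x := hr.differentiable one_ne_zero x
    have hfd : (1 + fderiv ℝ (fun x => r x - x) x) = fderiv ℝ r x := by
      have : fderiv ℝ (fun x => r x - x) x = fderiv ℝ r x - 1 := by
        have h := (hdr.hasFDerivAt.sub (hasFDerivAt_id x)).fderiv
        exact h
      rw [this]; abel
    rw [hfd]
    have horth : ∀ v, inner ℝ (r x) (fderiv ℝ r x v) = 0 := by
      intro v
      have hconst : (fun y => inner ℝ (r y) (r y)) = fun _ => (1 : ℝ) := by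
        funext y
        rw [real_inner_self_eq_norm_sq, h1 y]; norm_num
      have hd := (hdr.hasFDerivAt.inner ℝ hdr.hasFDerivAt)
      rw [hconst] at hd
      have := hd.unique (hasFDerivAt_const (1 : ℝ) x)
      have h2 := congrArg (fun A : E →L[ℝ] ℝ => A v) this
      simp [fderivInnerCLM_apply, real_inner_comm] at h2
      linarith
    by_contra hne
    have hu : IsUnit (LinearMap.det (fderiv ℝ r x : E →ₗ[ℝ] E)) := isUnit_iff_ne_zero.2 hne
    obtain ⟨v, hv⟩ := (LinearMap.equivOfIsUnitDet hu).surjective (r x)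
    have h3 := horth v
    have h4 : fderiv ℝ r x v = r x := by
      rw [← hv, LinearMap.equivOfIsUnitDet_apply]
      rfl
    rw [h4, real_inner_self_eq_norm_sq, h1 x] at h3
    norm_num at h3
  simp_rw [hdet] at hvol
  rw [integral_zero] at hvol
  have hpos : 0 < (volume (closedBall (0 : E) 1)).toReal :=
    ENNReal.toReal_pos (measure_closedBall_pos volume 0 one_pos).ne'
      (isCompact_closedBall 0 1).measure_lt_top.ne
  exact hpos.ne hvol

/-- A continuous self-map of a finite-dimensional Euclidean space which is the identity outside the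
open unit ball has a zero. -/
theorem exists_zero_of_eq_id (R : E → E) (hR : Continuous R) (hid : ∀ x, 1 ≤ ‖x‖ → R x = x) :
    ∃ x, R x = 0 := by
  by_contra hno
  push Not at hno
  -- lower bound
  obtain ⟨m, hm0, hm⟩ : ∃ m : ℝ, 0 < m ∧ ∀ x, m ≤ ‖R x‖ := by
    obtain ⟨x₀, _, hx₀⟩ := (isCompact_closedBall (0 : E) 1).exists_isMinOn
      ⟨0, by simp⟩ hR.norm.continuousOn
    refine ⟨min ‖R x₀‖ 1, lt_min (norm_pos_iff.2 (hno x₀)) one_pos, fun x => ?_⟩
    by_cases hx : ‖x‖ ≤ 1
    · exact (min_le_left _ _).trans (hx₀ (by simpa using hx))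
    · rw [hid x (not_le.1 hx).le]
      exact (min_le_right _ _).trans (not_le.1 hx).le
  obtain ⟨g', hg', hdist, hsupp⟩ := Continuous.exists_contDiff_approx (f := fun x => R x - x)
    (ε := fun _ => m) 1 (hR.sub continuous_id) continuous_const (fun _ => hm0)
  have hne : ∀ x, x + g' x ≠ 0 := by
    intro x h0
    have h1 := hdist x
    rw [dist_eq_norm] at h1
    have h2 : g' x - (R x - x) = - R x := by
      have : g' x = -x := by
        rw [add_comm] at h0; exact eq_neg_of_add_eq_zero_left h0
      rw [this]; abel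
    rw [h2, norm_neg] at h1
    exact absurd (hm x) (not_le.2 h1)
  have hout : ∀ x, 1 ≤ ‖x‖ → g' x = 0 := by
    intro x hx
    by_contra hg
    have := hsupp (Function.mem_support.2 hg)
    rw [Function.mem_support] at this
    exact this (by simp [hid x hx])
  have hcd : ContDiff ℝ 1 (fun x => x + g' x) := contDiff_id.add hg'
  refine no_contDiff_retraction (fun x => ‖x + g' x‖⁻¹ • (x + g' x)) ?_ ?_ ?_
  · exact ((hcd.norm ℝ hne).inv (fun x => norm_ne_zero_iff.2 (hne x))).smul hcd
  · intro x
    rw [norm_smul, norm_inv, norm_norm, inv_mul_cancel₀ (norm_ne_zero_iff.2 (hne x))]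
  · intro x hx
    rw [hout x hx.ge]
    simp [hx]

end Pool.Agent.H86
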