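import Pool.Agent.H37.MHD.Defs2

/-!
# MP_59296a_an, module M9b: elementary properties of a stage
-/

open MeasureTheory Set Filter Topology
open scoped ContDiff
open H36.MHD

noncomputable section

namespace H37.MHD

variable {B : Bg}

/-- a back path of duration `0` is constant -/
theorem backPath_zero' (U : X → V3) (x y : V3) (h : BackPath U 0 x y) : y = x := by
  obtain ⟨β, -, h1, h2⟩ := h
  have := h2 1 (by constructor <;> norm_num)
  rw [h1] at this
  simpa using this

theorem Stage.Y_diffAt (st : Stage B) (i : Fin 2) (z : X) :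
    DifferentiableAt ℝ (vec (st.Y i)) z := by
  rw [show vec (st.Y i) = fun z k => st.Y i k z from rfl]
  exact differentiableAt_pi.2 fun k => ((st.Y_smooth i k).differentiable (by simp)) z

theorem Stage.fderiv_dens (st : Stage B) (i : Fin 2) (z v : X) :
    fderiv ℝ (st.dens i) z v
      = fderiv ℝ st.rho (vec (st.Y i) z) (fun j => fderiv ℝ (st.Y i j) z v) := by
  have hρ : DifferentiableAt ℝ st.rho (vec (st.Y i) z) :=
    (st.rho_smooth.differentiable (by simp)) _
  have hY := st.Y_diffAt i z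
  have h1 : st.dens i = st.rho ∘ (vec (st.Y i)) := rfl
  rw [h1, fderiv_comp z hρ hY]
  simp only [ContinuousLinearMap.comp_apply]
  congr 1
  have h2 : vec (st.Y i) = fun z k => st.Y i k z := rfl
  rw [h2, fderiv_pi fun k => ((st.Y_smooth i k).differentiable (by simp)) z]
  rfl

/-- the transport equation of the density of a stage -/
theorem Stage.dens_trans (st : Stage B) (i : Fin 2) (z : X) (hz : |z.1| < 3 / 2 * B.T) :
    dt (st.dens i) z + ∑ k, st.u i k z * dx k (st.dens i) z = 0 := by
  simp only [dt, dx, st.fderiv_dens]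
  have h : (fun j => fderiv ℝ (st.Y i j) z (1, 0))
      + ∑ k : Fin 3, st.u i k z • (fun j => fderiv ℝ (st.Y i j) z (0, Pi.single k 1)) = 0 := by
    funext j
    have := st.trans i j z hz
    simp only [dt, dx] at this
    simpa [Finset.sum_apply] using this
  have h' := congrArg (fderiv ℝ st.rho (vec (st.Y i) z)) h
  simpa [map_add, map_sum, map_smul] using h'

/-- initial density of a stage -/
theorem Stage.dens_zero (st : Stage B) (i : Fin 2) (x : V3) : st.dens i (0, x) = st.rho x := by
  have h := st.path i 0 x (by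
    have := B.hT
    rw [abs_zero]; positivity)
  have h2 := backPath_zero' _ _ _ h
  unfold Stage.dens
  rw [h2]

/-- the velocity vanishes at time `0` and outside the ball -/
theorem Stage.u_zero (st : Stage B) (i : Fin 2) (k : Fin 3) (x : V3) : st.u i k (0, x) = 0 := by
  obtain ⟨c, hc, -, h⟩ := st.close
  have h1 := h i (0, x) (by
    have := B.hT
    rw [abs_zero]; positivity)
  have h2 : ‖vec (st.u i) (0, x)‖ ≤ 0 := by
    simpa [aa, th] using h1
  have h3 : vec (st.u i) (0, x) = 0 := norm_le_zero_iff.1 h2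
  exact congrFun h3 k

theorem Stage.u_supp (st : Stage B) (i : Fin 2) (k : Fin 3) (z : X) (hz : B.r < ‖z.2 - B.x0‖) :
    st.u i k z = 0 ∧ st.f k z = 0 ∧ st.p i z = 0 := by
  have hw : ∀ k, B.w k z.2 = 0 := by
    intro k
    by_contra hne
    exact absurd (B.w_supp k z.2 hne) (not_le.2 hz)
  have hS : SS B z < st.s ^ 2 := by
    have : SS B z = 0 := by simp [SS, hw]
    rw [this]
    exact pow_pos st.s_pos 2
  have h := st.base z hS i k
  rw [hw k, mul_zero] at h
  exact h

/-- the two velocities differ -/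
theorem Stage.u_ne (st : Stage B) (t : ℝ) (ht : 0 < t) (htT : t ≤ B.T) (x : V3) :
    t ^ 3 * ‖wv B x‖ ≤ ‖vec (st.u 0) (t, x) - vec (st.u 1) (t, x)‖ := by
  have hT := B.hT
  obtain ⟨c, hc, hcm, h⟩ := st.close
  have habs : |t| ≤ 2 * B.T := by rw [abs_of_pos ht]; linarith
  have h0 := h 0 (t, x) habs
  have h1 := h 1 (t, x) habs
  have hcT : c * t ≤ 1 / 4 := by
    calc c * t ≤ cmax B * B.T := mul_le_mul hcm.le htT ht.le (by unfold cmax; positivity)
      _ = 1 / 4 := by unfold cmax; field_simp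
  have hcth : c * th t ≤ 1 / 16 * t ^ 3 := by
    have : c * th t = 1 / 4 * t ^ 3 * (c * t) := by unfold th; ring
    rw [this]
    have h3 : 0 ≤ t ^ 3 := by positivity
    nlinarith
  have hw : 0 ≤ ‖wv B x‖ := norm_nonneg _
  have hs0 : sg 0 = 1 := by simp [sg]
  have hs1 : sg 1 = -1 := by simp [sg]
  rw [hs0] at h0
  rw [hs1] at h1
  simp only at h0 h1
  have e : (2 * aa t) • wv B x
      = (vec (st.u 0) (t, x) - vec (st.u 1) (t, x))
        - (vec (st.u 0) (t, x) - (1 * aa t) • wv B x)
        + (vec (st.u 1) (t, x) - (-1 * aa t) • wv B x) := by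
    module
  have h2 : ‖(2 * aa t) • wv B x‖ = 2 * t ^ 3 * ‖wv B x‖ := by
    rw [norm_smul, Real.norm_eq_abs, abs_of_nonneg (by unfold aa; positivity)]
    rfl
  have h3 : ‖(2 * aa t) • wv B x‖ ≤ ‖vec (st.u 0) (t, x) - vec (st.u 1) (t, x)‖
        + ‖vec (st.u 0) (t, x) - (1 * aa t) • wv B x‖
        + ‖vec (st.u 1) (t, x) - (-1 * aa t) • wv B x‖ := by
    rw [e]
    refine (norm_add_le _ _).trans ?_
    gcongr
    exact norm_sub_le _ _
  have h4 : c * th t * ‖wv B x‖ ≤ 1 / 16 * t ^ 3 * ‖wv B x‖ :=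
    mul_le_mul_of_nonneg_right hcth hw
  have h5 : 0 ≤ t ^ 3 * ‖wv B x‖ := by positivity
  linarith [h2 ▸ h3]

end H37.MHD
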