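import Pool.Agent.H86.CommF

set_option autoImplicit false
open Filter Topology

namespace Pool.Agent.H86.Comm

/-- Sequences of natural numbers tending to infinity along `U` (the infinite elements of the
ultrapower of the natural numbers). -/
abbrev Unb (U : Ultrafilter ℕ) : Type := {x : ℕ → ℕ // Tendsto x (U : Filter ℕ) atTop}

theorem exists_mono_majorant (f : ℕ → ℕ) : ∃ F : ℕ → ℕ, StrictMono F ∧ ∀ k, f k ≤ F k := by
  refine ⟨fun k => k + ∑ i ∈ Finset.range (k + 1), f i, ?_, ?_⟩
  · apply strictMono_nat_of_lt_succ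
    intro k
    have := Finset.sum_range_succ f (k + 1)
    show k + ∑ i ∈ Finset.range (k + 1), f i < k + 1 + ∑ i ∈ Finset.range (k + 1 + 1), f i
    omega
  · intro k
    have : f k ≤ ∑ i ∈ Finset.range (k + 1), f i :=
      Finset.single_le_sum (f := f) (fun _ _ => Nat.zero_le _) (Finset.self_mem_range_succ k)
    show f k ≤ k + ∑ i ∈ Finset.range (k + 1), f i
    omega

/-- Two infinite elements lie in the same sky if each is bounded by a standard function of the
other. -/
def skySetoid (U : Ultrafilter ℕ) : Setoid (Unb U) where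
  r x y := ∃ f : ℕ → ℕ, (∀ᶠ n in (U : Filter ℕ), x.1 n ≤ f (y.1 n)) ∧
    (∀ᶠ n in (U : Filter ℕ), y.1 n ≤ f (x.1 n))
  iseqv := by
    refine ⟨fun x => ⟨id, Eventually.of_forall (fun _ => le_rfl),
      Eventually.of_forall (fun _ => le_rfl)⟩, ?_, ?_⟩
    · rintro x y ⟨f, h1, h2⟩
      exact ⟨f, h2, h1⟩
    · rintro x y z ⟨f, h1, h2⟩ ⟨g, h3, h4⟩
      obtain ⟨F, hF, hF'⟩ := exists_mono_majorant f
      obtain ⟨G, hG, hG'⟩ := exists_mono_majorant g
      refine ⟨fun k => F (G k) + G (F k), ?_, ?_⟩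
      · filter_upwards [h1, h3] with n h1 h3
        have h5 : x.1 n ≤ F (G (z.1 n)) :=
          (h1.trans (hF' _)).trans (hF.monotone (h3.trans (hG' _)))
        exact h5.trans (Nat.le_add_right _ _)
      · filter_upwards [h2, h4] with n h2 h4
        have h5 : z.1 n ≤ G (F (x.1 n)) :=
          (h4.trans (hG' _)).trans (hG.monotone (h2.trans (hF' _)))
        exact h5.trans (Nat.le_add_left _ _)

/-- The skies of `U`. -/
def Skies (U : Ultrafilter ℕ) : Type := Quotient (skySetoid U)

theorem continuum_le_skies (U : Ultrafilter ℕ) (hU : IsFlat U) :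
    Cardinal.continuum ≤ Cardinal.mk (Skies U) := by
  obtain ⟨h, h01, h0, hlim, hslow⟩ := hU
  set H : ℕ → ℕ → ℝ := fun n => tsup (h n) with hH
  have H01 : ∀ n j, 0 ≤ H n j ∧ H n j ≤ 1 := fun n j => tsup_01 (h01 n) j
  have Hanti : ∀ n, Antitone (H n) := fun n => tsup_anti (h01 n)
  have H0 : ∀ n, H n 0 = 1 := fun n => tsup_zero (h01 n) (h0 n)
  have Hlim : ∀ n, Tendsto (H n) atTop (𝓝 0) := fun n => tsup_lim (h01 n) (hlim n)
  have Hslow : ∀ f : ℕ → ℕ, StrictMono f → ∀ ε > 0, ∀ᶠ n in (U : Filter ℕ),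
      ∀ j, H n j - H n (f j) ≤ ε := by
    intro f hf ε hε
    filter_upwards [(hslow f hf).eventually (ge_mem_nhds hε)] with n hn
    exact tsup_slow (h01 n) f hf ε (fun j => (le_ciSup (bdd_diff (h01 n) f) j).trans hn)
  have hex : ∀ (t : Set.Ioo (0 : ℝ) 1) (n : ℕ), ∃ j, H n j ≤ t.1 := by
    intro t n
    exact ((Hlim n).eventually (ge_mem_nhds t.2.1)).exists
  classical
  set x : Set.Ioo (0 : ℝ) 1 → ℕ → ℕ := fun t n => Nat.find (hex t n) with hx
  have hxs : ∀ t n, H n (x t n) ≤ t.1 := fun t n => Nat.find_spec (hex t n)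
  have hxm : ∀ t n j, j < x t n → t.1 < H n j := fun t n j hj =>
    not_le.mp (Nat.find_min (hex t n) hj)
  have hxpos : ∀ t n, 0 < x t n := by
    intro t n
    rw [Nat.pos_iff_ne_zero]
    intro h'
    have := hxs t n
    rw [h', H0 n] at this
    linarith [t.2.2]
  have hxinf : ∀ t, Tendsto (x t) (U : Filter ℕ) atTop := by
    intro t
    rw [tendsto_atTop]
    intro k
    have hf : StrictMono (fun j : ℕ => j + k) := fun a b hab => by
      show a + k < b + k
      omega
    have hpos : 0 < (1 - t.1) / 2 := by linarith [t.2.2]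
    filter_upwards [Hslow _ hf _ hpos] with n hn
    have h1 := hn 0
    simp only [zero_add, H0 n] at h1
    by_contra hlt
    have h2 : H n k ≤ H n (x t n) := Hanti n (not_le.mp hlt).le
    have h3 := hxs t n
    linarith [t.2.2]
  have hne : ∀ s t : Set.Ioo (0 : ℝ) 1, s.1 < t.1 → ∀ f : ℕ → ℕ,
      ¬ ∀ᶠ n in (U : Filter ℕ), x s n ≤ f (x t n) := by
    intro s t hst f hf
    obtain ⟨F, hF, hF'⟩ := exists_mono_majorant f
    have hpos : 0 < (t.1 - s.1) / 4 := by linarith
    have hsucc : StrictMono (fun j : ℕ => j + 1) := fun a b hab => by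
      show a + 1 < b + 1
      omega
    obtain ⟨n, hn1, hn2, hn3⟩ := (hf.and ((Hslow F hF _ hpos).and
      (Hslow _ hsucc _ hpos))).exists
    have h1 := hxm t n (x t n - 1) (by have := hxpos t n; omega)
    have h2 := hn3 (x t n - 1)
    have h3 : x t n - 1 + 1 = x t n := by have := hxpos t n; omega
    simp only [h3] at h2
    have h4 : H n (F (x t n)) ≤ H n (x s n) := Hanti n (hn1.trans (hF' _))
    have h5 := hxs s n
    have h6 := hn2 (x t n)
    linarith
  have hinj : Function.Injective (fun t : Set.Ioo (0 : ℝ) 1 =>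
      (Quotient.mk (skySetoid U) ⟨x t, hxinf t⟩ : Skies U)) := by
    intro s t hst
    by_contra hne'
    have hrel : (skySetoid U).r ⟨x s, hxinf s⟩ ⟨x t, hxinf t⟩ := Quotient.exact hst
    obtain ⟨f, h1, h2⟩ := hrel
    rcases lt_or_gt_of_ne (fun h => hne' (Subtype.ext h) : s.1 ≠ t.1) with hlt | hlt
    · exact hne s t hlt f h1
    · exact hne t s hlt f h2
  have h1 := Cardinal.mk_le_of_injective hinj
  rwa [Cardinal.mk_Ioo_real (by norm_num)] at h1

theorem main (U : Ultrafilter ℕ) :
    (TrivialCommutant U ↔ ¬ IsFlat U) ∧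
    (Cardinal.mk (Skies U) < Cardinal.continuum → TrivialCommutant U) ∧
    (IsPPoint U → TrivialCommutant U) := by
  have h1 : TrivialCommutant U ↔ ¬ IsFlat U := by
    constructor
    · intro h hf
      exact not_trivial_of_flat U hf h
    · intro h
      by_contra h'
      exact h (flat_of_not_trivial U h')
  refine ⟨h1, ?_, ?_⟩
  · intro h
    rw [h1]
    intro hf
    exact absurd h (not_lt.mpr (continuum_le_skies U hf))
  · intro h
    rw [h1]
    exact not_flat_of_ppoint U h

end Pool.Agent.H86.Comm
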