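import Pool.Agent.H86.Brouwer

open MeasureTheory Set Metric Filter Topology

set_option linter.unusedSectionVars false

namespace Pool.Agent.H86

variable {E : Type*} [NormedAddCommGroup E] [InnerProductSpace ℝ E] [FiniteDimensional ℝ E]

/-- A continuous self-map of the closed unit ball that moves every point by less than `1 - ‖y‖`
has `y` in its range. -/
theorem mem_range_of_near_id (ρ : closedBall (0 : E) 1 → closedBall (0 : E) 1) (hρ : Continuous ρ)
    (y : E) (hy : ‖y‖ ≤ 1) (hnear : ∀ v, dist (ρ v) v < 1 - ‖y‖) :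
    ∃ v, (ρ v : E) = y := by
  classical
  -- projection to the ball
  have hπmem : ∀ x : E, (max 1 ‖x‖)⁻¹ • x ∈ closedBall (0 : E) 1 := by
    intro x
    have hpos : 0 < max 1 ‖x‖ := lt_of_lt_of_le one_pos (le_max_left _ _)
    rw [mem_closedBall_zero_iff, norm_smul, norm_inv, Real.norm_eq_abs, abs_of_pos hpos,
      inv_mul_le_iff₀ hpos, mul_one]
    exact le_max_right _ _
  let π : E → closedBall (0 : E) 1 := fun x => ⟨(max 1 ‖x‖)⁻¹ • x, hπmem x⟩
  have hπc : Continuous π := by
    refine Continuous.subtype_mk ?_ _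
    refine Continuous.smul (Continuous.inv₀ (by fun_prop) fun x => ?_) continuous_id
    exact (lt_of_lt_of_le one_pos (le_max_left _ _)).ne'
  let χ : E → ℝ := fun x => max 0 (min 1 (2 - ‖x‖))
  have hχc : Continuous χ := by fun_prop
  have hχ0 : ∀ x, 0 ≤ χ x := fun x => le_max_left _ _
  have hχ1 : ∀ x, χ x ≤ 1 := fun x => max_le zero_le_one (min_le_left _ _)
  let e : E → E := fun v => v + χ v • ((ρ (π v) : E) - (π v : E))
  have hec : Continuous e := by
    have h1 : Continuous fun v => (ρ (π v) : E) := continuous_subtype_val.comp (hρ.comp hπc)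
    have h2 : Continuous fun v => (π v : E) := continuous_subtype_val.comp hπc
    exact continuous_id.add (hχc.smul (h1.sub h2))
  have he2 : ∀ v, 2 ≤ ‖v‖ → e v = v := by
    intro v hv
    have : χ v = 0 := by
      simp only [χ]
      rw [max_eq_left]
      exact (min_le_right _ _).trans (by linarith)
    simp only [e, this, zero_smul, add_zero]
  have henear : ∀ v, dist (e v) v < 1 - ‖y‖ := by
    intro v
    have h1 : dist (e v) v = χ v * dist (ρ (π v)) (π v) := by
      rw [dist_eq_norm, Subtype.dist_eq, dist_eq_norm]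
      simp only [e, add_sub_cancel_left, norm_smul, Real.norm_eq_abs, abs_of_nonneg (hχ0 v)]
    rw [h1]
    calc χ v * dist (ρ (π v)) (π v) ≤ 1 * dist (ρ (π v)) (π v) := by
          gcongr
          exact hχ1 v
      _ < 1 - ‖y‖ := by rw [one_mul]; exact hnear _
  have he1 : ∀ v, (hv : ‖v‖ ≤ 1) → e v = ρ ⟨v, by simpa using hv⟩ := by
    intro v hv
    have h1 : χ v = 1 := by
      simp only [χ]
      rw [min_eq_left (by linarith), max_eq_right zero_le_one]
    have h2 : π v = ⟨v, by simpa using hv⟩ := by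
      apply Subtype.ext
      simp only [π]
      rw [max_eq_left hv, inv_one, one_smul]
    simp only [e, h1, h2, one_smul]
    abel
  obtain ⟨x, hx⟩ := exists_zero_of_eq_id (fun x => (3 : ℝ)⁻¹ • (e ((3 : ℝ) • x + y) - y))
    (by
      refine Continuous.const_smul (Continuous.sub (hec.comp ?_) continuous_const) _
      fun_prop)
    (by
      intro x hx
      have h3 : 2 ≤ ‖(3 : ℝ) • x + y‖ := by
        have h4 : ‖(3 : ℝ) • x‖ - ‖y‖ ≤ ‖(3 : ℝ) • x + y‖ := by
          have := norm_sub_norm_le ((3 : ℝ) • x) (-y)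
          rwa [norm_neg, sub_neg_eq_add] at this
        rw [norm_smul] at h4
        norm_num at h4
        linarith
      rw [he2 _ h3, add_sub_cancel_right, smul_smul]
      norm_num)
  have hx' : e ((3 : ℝ) • x + y) = y := by
    have := (smul_eq_zero.1 hx).resolve_left (by norm_num)
    exact sub_eq_zero.1 this
  set v := (3 : ℝ) • x + y with hv
  have h5 := henear v
  rw [hx'] at h5
  have h6 : ‖v‖ ≤ 1 := by
    have h7 : ‖v‖ ≤ ‖v - y‖ + ‖y‖ := by simpa using norm_add_le (v - y) y
    rw [dist_comm, dist_eq_norm] at h5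
    linarith
  refine ⟨⟨v, by simpa using h6⟩, ?_⟩
  rw [← he1 v h6, hx']

/-- **Invariance of the boundary**: a self-homeomorphism of the closed unit ball maps the unit
sphere into the unit sphere. -/
theorem norm_homeo_ball_eq_one (h : closedBall (0 : E) 1 ≃ₜ closedBall (0 : E) 1)
    (x : closedBall (0 : E) 1) (hx : ‖(x : E)‖ = 1) : ‖(h x : E)‖ = 1 := by
  by_contra hne
  have hle : ‖(h x : E)‖ ≤ 1 := mem_closedBall_zero_iff.1 (h x).2
  have hlt : ‖(h x : E)‖ < 1 := lt_of_le_of_ne hle hne
  have _ : CompactSpace (closedBall (0 : E) 1) :=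
    isCompact_iff_compactSpace.1 (isCompact_closedBall 0 1)
  have huc : UniformContinuous h := CompactSpace.uniformContinuous_of_continuous h.continuous
  obtain ⟨δ, hδ0, hδ⟩ := Metric.uniformContinuous_iff.1 huc (1 - ‖(h x : E)‖) (by linarith)
  set δ' : ℝ := min (δ / 2) (1 / 2) with hδ'
  have hδ'0 : 0 < δ' := by positivity
  have hδ'1 : δ' < δ := lt_of_le_of_lt (min_le_left _ _) (by linarith)
  have hδ'2 : δ' ≤ 1 / 2 := min_le_right _ _
  let s : closedBall (0 : E) 1 → closedBall (0 : E) 1 := fun u => ⟨(1 - δ') • (u : E), by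
    have hu : ‖(u : E)‖ ≤ 1 := mem_closedBall_zero_iff.1 u.2
    rw [mem_closedBall_zero_iff, norm_smul, Real.norm_eq_abs, abs_of_nonneg (by linarith)]
    nlinarith [norm_nonneg (u : E)]⟩
  have hsc : Continuous s := by
    refine Continuous.subtype_mk ?_ _
    fun_prop
  obtain ⟨v, hv⟩ := mem_range_of_near_id (fun v => h (s (h.symm v)))
    (h.continuous.comp (hsc.comp h.symm.continuous)) (h x : E) hle (by
      intro v
      have h1 : dist (s (h.symm v)) (h.symm v) < δ := by
        rw [Subtype.dist_eq, dist_eq_norm]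
        have : ((s (h.symm v) : closedBall (0 : E) 1) : E) - (h.symm v : E)
            = -(δ' • (h.symm v : E)) := by
          simp only [s, sub_smul, one_smul]; abel
        rw [this, norm_neg, norm_smul, Real.norm_eq_abs, abs_of_pos hδ'0]
        have hu : ‖(h.symm v : E)‖ ≤ 1 := mem_closedBall_zero_iff.1 (h.symm v).2
        nlinarith [norm_nonneg (h.symm v : E)]
      have h2 := hδ h1
      simpa using h2)
  have hv2 : s (h.symm v) = x := h.injective (Subtype.ext hv)
  have hv3 : (1 - δ') * ‖(h.symm v : E)‖ = 1 := by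
    have h1 : ‖((s (h.symm v) : closedBall (0 : E) 1) : E)‖ = 1 := by rw [hv2, hx]
    simp only [s, norm_smul, Real.norm_eq_abs] at h1
    rwa [abs_of_nonneg (by linarith)] at h1
  have hu : ‖(h.symm v : E)‖ ≤ 1 := mem_closedBall_zero_iff.1 (h.symm v).2
  nlinarith [norm_nonneg (h.symm v : E)]

end Pool.Agent.H86
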