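import Mathlib

/-!
Definitions used in the statement about homeomorphism groups of balls.
-/

open MeasureTheory

namespace Pool.Agent.H86

/-- The topology of uniform convergence (equivalently, the compact-open topology) on the
self-homeomorphisms of a compact space `X`. -/
@[instance_reducible]
def homeoTopology (X : Type*) [TopologicalSpace X] : TopologicalSpace (X ≃ₜ X) :=
  TopologicalSpace.induced (fun f => (f : C(X, X))) ContinuousMap.compactOpen

/-- The closed unit ball `Dⁿ` of Euclidean space `ℝⁿ`. -/
def closedUnitBall (n : ℕ) : Set (EuclideanSpace ℝ (Fin n)) := Metric.closedBall 0 1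

/-- The self-homeomorphisms of the closed unit ball `Dⁿ`. -/
def BallHomeo (n : ℕ) : Type := closedUnitBall n ≃ₜ closedUnitBall n

/-- The self-homeomorphisms of `Dⁿ` form a group under composition. -/
instance (n : ℕ) : Group (BallHomeo n) := Homeomorph.instGroup

/-- The topology of uniform convergence on the self-homeomorphisms of `Dⁿ`. -/
instance (n : ℕ) : TopologicalSpace (BallHomeo n) := homeoTopology (closedUnitBall n)

/-- A self-homeomorphism `φ` of the closed unit ball is a rotation if it is `x ↦ A x` for some
matrix `A` in `SO(n)`. -/
def IsRotation {n : ℕ} (φ : BallHomeo n) : Prop :=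
  ∃ A ∈ Matrix.specialOrthogonalGroup (Fin n) ℝ,
    ∀ (x : closedUnitBall n) (i : Fin n), (φ.toFun x).val i = ∑ j, A i j * x.val j

/-- Haar null subsets (in the sense of Christensen) of a group `G` with a topology: those `N` for
which there are a Borel set `B ⊇ N` and a Borel probability measure `μ` on `G` such that
`μ (g B h) = 0` for all `g, h` in `G`. -/
def IsHaarNull {G : Type*} [Group G] [TopologicalSpace G] (N : Set G) : Prop :=
  ∃ B : Set G, N ⊆ B ∧ MeasurableSet[borel G] B ∧
    ∃ μ : @Measure G (borel G), @IsProbabilityMeasure G (borel G) μ ∧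
      ∀ g h : G, μ ((fun x => g * x * h) '' B) = 0

end Pool.Agent.H86
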