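import Mathlib

set_option autoImplicit false
open Filter Topology

namespace Pool.Agent.H86.Comm

/-- The Hilbert space of square summable complex sequences. -/
noncomputable abbrev L2 := lp (fun _ : ℕ => ℂ) 2

theorem two_toReal : (2 : ENNReal).toReal = 2 := by norm_num

theorem two_pos' : 0 < (2 : ENNReal).toReal := by norm_num

theorem norm_le_of_coord (x y : L2) (C : ℝ) (hC : 0 ≤ C) (h : ∀ i, ‖y i‖ ≤ C * ‖x i‖) :
    ‖y‖ ≤ C * ‖x‖ := by
  apply lp.norm_le_of_forall_sum_le two_pos' (by positivity)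
  intro s
  rw [Real.mul_rpow hC (norm_nonneg _)]
  calc ∑ i ∈ s, ‖y i‖ ^ (2 : ENNReal).toReal
      ≤ ∑ i ∈ s, C ^ (2 : ENNReal).toReal * ‖x i‖ ^ (2 : ENNReal).toReal := by
        apply Finset.sum_le_sum
        intro i _
        rw [← Real.mul_rpow hC (norm_nonneg _)]
        exact Real.rpow_le_rpow (norm_nonneg _) (h i) two_pos'.le
    _ = C ^ (2 : ENNReal).toReal * ∑ i ∈ s, ‖x i‖ ^ (2 : ENNReal).toReal := by
        rw [Finset.mul_sum]
    _ ≤ C ^ (2 : ENNReal).toReal * ‖x‖ ^ (2 : ENNReal).toReal := by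
        apply mul_le_mul_of_nonneg_left _ (by positivity)
        exact lp.sum_rpow_le_norm_rpow two_pos' x s

theorem mul_memlp (φ : ℕ → ℂ) (h : ∀ i, ‖φ i‖ ≤ 1) (x : L2) :
    Memℓp (fun i => φ i * x i) 2 := by
  have hx := lp.memℓp x
  rw [memℓp_gen_iff two_pos'] at hx ⊢
  refine Summable.of_nonneg_of_le (fun i => by positivity) (fun i => ?_) hx
  apply Real.rpow_le_rpow (norm_nonneg _) _ two_pos'.le
  rw [norm_mul]
  calc ‖φ i‖ * ‖x i‖ ≤ 1 * ‖x i‖ := by gcongr; exact h i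
    _ = ‖x i‖ := one_mul _

/-- Multiplication operator by a sequence bounded by one. -/
noncomputable def mulOp (φ : ℕ → ℂ) (h : ∀ i, ‖φ i‖ ≤ 1) : L2 →L[ℂ] L2 :=
  LinearMap.mkContinuous
    { toFun := fun x => ⟨fun i => φ i * x i, mul_memlp φ h x⟩
      map_add' := by
        intro x y
        ext i
        simp [mul_add]
      map_smul' := by
        intro c x
        ext i
        simp
        ring }
    1 (by
      intro x
      apply norm_le_of_coord _ _ 1 zero_le_one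
      intro i
      simp only [LinearMap.coe_mk, AddHom.coe_mk, norm_mul]
      gcongr
      exact h i)

@[simp] theorem mulOp_apply (φ : ℕ → ℂ) (h : ∀ i, ‖φ i‖ ≤ 1) (x : L2) (i : ℕ) :
    (mulOp φ h x) i = φ i * x i := rfl

theorem norm_mulOp_le (φ : ℕ → ℂ) (h : ∀ i, ‖φ i‖ ≤ 1) : ‖mulOp φ h‖ ≤ 1 :=
  LinearMap.mkContinuous_norm_le _ zero_le_one _

theorem inner_mulOp (φ : ℕ → ℝ) (h : ∀ i, ‖(φ i : ℂ)‖ ≤ 1) (x y : L2) :
    inner ℂ (mulOp (fun i => (φ i : ℂ)) h x) y = inner ℂ x (mulOp (fun i => (φ i : ℂ)) h y) := by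
  rw [lp.inner_eq_tsum, lp.inner_eq_tsum]
  congr 1
  ext i
  simp [mulOp_apply]
  ring


open Classical in
/-- Coordinate projection onto a set of coordinates. -/
noncomputable def pr (S : Set ℕ) : L2 →L[ℂ] L2 :=
  mulOp (fun i => (((if i ∈ S then (1 : ℝ) else 0) : ℝ) : ℂ))
    (fun i => by split_ifs <;> simp)

theorem pr_apply_mem {S : Set ℕ} {i : ℕ} (hi : i ∈ S) (x : L2) : (pr S x) i = x i := by
  simp [pr, hi]

theorem pr_apply_not_mem {S : Set ℕ} {i : ℕ} (hi : i ∉ S) (x : L2) : (pr S x) i = 0 := by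
  simp [pr, hi]

theorem norm_pr_le (S : Set ℕ) : ‖pr S‖ ≤ 1 := norm_mulOp_le _ _

theorem norm_pr_apply_le (S : Set ℕ) (x : L2) : ‖pr S x‖ ≤ ‖x‖ := by
  calc ‖pr S x‖ ≤ ‖pr S‖ * ‖x‖ := ContinuousLinearMap.le_opNorm _ _
    _ ≤ 1 * ‖x‖ := by gcongr; exact norm_pr_le S
    _ = ‖x‖ := one_mul _

theorem inner_pr (S : Set ℕ) (x y : L2) : inner ℂ (pr S x) y = inner ℂ x (pr S y) :=
  inner_mulOp _ _ x y

theorem pr_mul_pr (S T : Set ℕ) : pr S * pr T = pr (S ∩ T) := by
  ext x i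
  rw [mul_apply_eq_comp]
  by_cases hS : i ∈ S
  · rw [pr_apply_mem hS]
    by_cases hT : i ∈ T
    · rw [pr_apply_mem hT, pr_apply_mem (Set.mem_inter hS hT)]
    · rw [pr_apply_not_mem hT, pr_apply_not_mem (fun h => hT h.2)]
  · rw [pr_apply_not_mem hS, pr_apply_not_mem (fun h => hS h.1)]

theorem pr_add_compl (S : Set ℕ) : pr S + pr Sᶜ = 1 := by
  ext x i
  by_cases hS : i ∈ S
  · simp [pr_apply_mem hS, pr_apply_not_mem (S := Sᶜ) (i := i) (fun h => h hS)]
  · simp [pr_apply_not_mem hS, pr_apply_mem (S := Sᶜ) (i := i) hS]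

theorem pr_union {S T : Set ℕ} (h : Disjoint S T) : pr (S ∪ T) = pr S + pr T := by
  ext x i
  by_cases hS : i ∈ S
  · have hT : i ∉ T := fun hT => Set.disjoint_left.mp h hS hT
    simp [pr_apply_mem hS, pr_apply_not_mem hT, pr_apply_mem (S := S ∪ T) (i := i) (Or.inl hS)]
  · by_cases hT : i ∈ T
    · simp [pr_apply_mem hT, pr_apply_not_mem hS, pr_apply_mem (S := S ∪ T) (i := i) (Or.inr hT)]
    · simp [pr_apply_not_mem hT, pr_apply_not_mem hS,
        pr_apply_not_mem (fun h : i ∈ S ∪ T => h.elim hS hT)]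

theorem adjoint_pr (S : Set ℕ) : ContinuousLinearMap.adjoint (pr S) = pr S := by
  symm
  rw [ContinuousLinearMap.eq_adjoint_iff]
  intro x y
  exact inner_pr S x y

/-- finite sums of coordinates converge -/
theorem tendsto_trunc (z : L2) :
    Tendsto (fun m => pr (Set.Ici m) z) atTop (𝓝 0) := by
  have h := (lp.hasSum_single (p := 2) (by norm_num) z).tendsto_sum_nat
  have h2 : Tendsto (fun m => z - ∑ i ∈ Finset.range m, lp.single 2 i (z i)) atTop (𝓝 (z - z)) :=
    tendsto_const_nhds.sub h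
  rw [sub_self] at h2
  refine h2.congr (fun m => ?_)
  ext i
  by_cases hi : i ∈ Set.Ici m
  · rw [pr_apply_mem hi]
    simp only [lp.coeFn_sub, Pi.sub_apply, lp.coeFn_sum, Finset.sum_apply]
    rw [Finset.sum_eq_zero, sub_zero]
    intro j hj
    rw [lp.single_apply_ne]
    have := Finset.mem_range.mp hj
    have := Set.mem_Ici.mp hi
    omega
  · rw [pr_apply_not_mem hi]
    simp only [lp.coeFn_sub, Pi.sub_apply, lp.coeFn_sum, Finset.sum_apply]
    rw [Finset.sum_eq_single i, lp.single_apply_self, sub_self]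
    · intro j _ hji
      rw [lp.single_apply_ne]
      exact fun h => hji h.symm
    · intro h
      exfalso
      apply h
      rw [Finset.mem_range]
      by_contra h'
      exact hi (Set.mem_Ici.mpr (not_lt.mp h'))

theorem norm_pr_mono {S T : Set ℕ} (h : S ⊆ T) (x : L2) : ‖pr S x‖ ≤ ‖pr T x‖ := by
  have : pr S x = pr S (pr T x) := by
    rw [← mul_apply_eq_comp, pr_mul_pr, Set.inter_eq_left.mpr h]
  rw [this]
  exact norm_pr_apply_le _ _

/-- the finite rank estimate -/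
theorem tendsto_corner (b : L2 →L[ℂ] L2) (j : ℕ) (ε : ℝ) (hε : 0 < ε) :
    ∃ m, ∀ m' ≥ m, ‖pr (Set.Ici m') * b * pr (Set.Iio j)‖ ≤ ε := by
  have h1 : ∀ i : ℕ, ∃ m, ∀ m' ≥ m, ‖pr (Set.Ici m') (b (lp.single 2 i 1))‖ ≤ ε / (j + 1) := by
    intro i
    have h := tendsto_trunc (b (lp.single 2 i 1))
    have hpos : 0 < ε / ((j : ℝ) + 1) := by positivity
    have h' := (tendsto_zero_iff_norm_tendsto_zero.mp h).eventually
      (ge_mem_nhds hpos)
    rw [eventually_atTop] at h'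
    exact h'
  choose M hM using h1
  refine ⟨∑ i ∈ Finset.range j, M i, fun m' hm' => ?_⟩
  apply ContinuousLinearMap.opNorm_le_bound _ hε.le
  intro x
  have hx : pr (Set.Iio j) x = ∑ i ∈ Finset.range j, (x i) • (lp.single 2 i 1 : L2) := by
    ext k
    simp only [lp.coeFn_sum, Finset.sum_apply, lp.coeFn_smul, Pi.smul_apply, smul_eq_mul]
    by_cases hk : k ∈ Set.Iio j
    · rw [pr_apply_mem hk, Finset.sum_eq_single k]
      · rw [lp.single_apply_self, mul_one]
      · intro i _ hik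
        rw [lp.single_apply_ne _ _ _ (fun h => hik h.symm), mul_zero]
      · intro h
        exact absurd (Finset.mem_range.mpr hk) h
    · rw [pr_apply_not_mem hk, Finset.sum_eq_zero]
      intro i hi
      rw [lp.single_apply_ne, mul_zero]
      rintro rfl
      exact hk (Finset.mem_range.mp hi)
  rw [mul_apply_eq_comp, mul_apply_eq_comp, hx, map_sum, map_sum]
  calc ‖∑ i ∈ Finset.range j, pr (Set.Ici m') (b ((x i) • (lp.single 2 i 1 : L2)))‖
      ≤ ∑ i ∈ Finset.range j, ‖pr (Set.Ici m') (b ((x i) • (lp.single 2 i 1 : L2)))‖ :=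
        norm_sum_le _ _
    _ ≤ ∑ i ∈ Finset.range j, ‖x‖ * (ε / (j + 1)) := by
        apply Finset.sum_le_sum
        intro i hi
        rw [map_smul, map_smul, norm_smul]
        have h1 : ‖x i‖ ≤ ‖x‖ := lp.norm_apply_le_norm (by norm_num) x i
        have h2 : ‖pr (Set.Ici m') (b (lp.single 2 i 1))‖ ≤ ε / (j + 1) := by
          apply hM i
          refine le_trans ?_ hm'
          exact Finset.single_le_sum (f := M) (fun _ _ => Nat.zero_le _) hi
        gcongr
    _ = ‖x‖ * (j * (ε / (j + 1))) := by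
        rw [Finset.sum_const, Finset.card_range, nsmul_eq_mul]
        ring
    _ ≤ ‖x‖ * ε := by
        apply mul_le_mul_of_nonneg_left _ (norm_nonneg _)
        rw [mul_div_assoc', div_le_iff₀ (by positivity)]
        nlinarith
    _ = ε * ‖x‖ := mul_comm _ _

theorem tendsto_corner' (b : L2 →L[ℂ] L2) (j : ℕ) (ε : ℝ) (hε : 0 < ε) :
    ∃ m, ∀ m' ≥ m, ‖pr (Set.Iio j) * b * pr (Set.Ici m')‖ ≤ ε := by
  obtain ⟨m, hm⟩ := tendsto_corner (ContinuousLinearMap.adjoint b) j ε hε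
  refine ⟨m, fun m' hm' => ?_⟩
  have h := hm m' hm'
  have h2 : ContinuousLinearMap.adjoint (pr (Set.Iio j) * b * pr (Set.Ici m')) =
      pr (Set.Ici m') * ContinuousLinearMap.adjoint b * pr (Set.Iio j) := by
    rw [← ContinuousLinearMap.star_eq_adjoint, star_mul, star_mul,
      ContinuousLinearMap.star_eq_adjoint, ContinuousLinearMap.star_eq_adjoint,
      ContinuousLinearMap.star_eq_adjoint, adjoint_pr, adjoint_pr, mul_assoc]
  rw [← h2, LinearIsometryEquiv.norm_map] at h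
  exact h

end Pool.Agent.H86.Comm
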