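import Pool.Agent.H86.Comm

set_option autoImplicit false
open Filter Topology

namespace Pool.Agent.H86.Comm

theorem norm_corner_mono (b : L2 →L[ℂ] L2) {S S' T T' : Set ℕ} (hS : S ⊆ S') (hT : T ⊆ T') :
    ‖pr S * b * pr T‖ ≤ ‖pr S' * b * pr T'‖ := by
  have h : pr S * b * pr T = pr S * (pr S' * b * pr T') * pr T := by
    have h1 : pr S = pr S * pr S' := by rw [pr_mul_pr, Set.inter_eq_left.mpr hS]
    have h2 : pr T = pr T' * pr T := by rw [pr_mul_pr, Set.inter_eq_right.mpr hT]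
    calc pr S * b * pr T = (pr S * pr S') * b * (pr T' * pr T) := by rw [← h1, ← h2]
      _ = pr S * (pr S' * b * pr T') * pr T := by simp only [mul_assoc]
  rw [h]
  calc ‖pr S * (pr S' * b * pr T') * pr T‖
      ≤ ‖pr S * (pr S' * b * pr T')‖ * ‖pr T‖ := norm_mul_le _ _
    _ ≤ (‖pr S‖ * ‖pr S' * b * pr T'‖) * ‖pr T‖ := by gcongr; exact norm_mul_le _ _
    _ ≤ (1 * ‖pr S' * b * pr T'‖) * 1 := by gcongr <;> exact norm_pr_le _
    _ = ‖pr S' * b * pr T'‖ := by ring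

theorem pr_empty : pr ∅ = 0 := by
  ext x i
  simp [pr_apply_not_mem (Set.notMem_empty i)]

theorem norm_sq_pr_union {S T : Set ℕ} (h : Disjoint S T) (x : L2) :
    ‖pr (S ∪ T) x‖ ^ 2 = ‖pr S x‖ ^ 2 + ‖pr T x‖ ^ 2 := by
  have h0 : inner ℂ (pr S x) (pr T x) = 0 := by
    rw [inner_pr, ← mul_apply_eq_comp, pr_mul_pr, Set.disjoint_iff_inter_eq_empty.mp h, pr_empty]
    simp
  rw [pr_union h]
  have := norm_add_sq_eq_norm_sq_add_norm_sq_of_inner_eq_zero (𝕜 := ℂ) (pr S x) (pr T x) h0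
  rw [add_apply, pow_two, this]
  ring

theorem sum_sq_pr_le {ι : Type*} (s : Finset ι) (S : ι → Set ℕ)
    (hd : ∀ i ∈ s, ∀ j ∈ s, i ≠ j → Disjoint (S i) (S j)) (x : L2) :
    ∑ i ∈ s, ‖pr (S i) x‖ ^ 2 ≤ ‖x‖ ^ 2 := by
  classical
  have key : ∑ i ∈ s, ‖pr (S i) x‖ ^ 2 = ‖pr (⋃ i ∈ s, S i) x‖ ^ 2 := by
    induction s using Finset.induction_on with
    | empty => simp [pr_empty]
    | insert a s ha ih =>
      rw [Finset.sum_insert ha, ih (fun i hi j hj => hd i (Finset.mem_insert_of_mem hi) j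
        (Finset.mem_insert_of_mem hj)), Finset.set_biUnion_insert, norm_sq_pr_union]
      rw [Set.disjoint_iUnion₂_right]
      intro i hi
      apply hd a (Finset.mem_insert_self _ _) i (Finset.mem_insert_of_mem hi)
      rintro rfl
      exact ha hi
  rw [key]
  have := norm_pr_apply_le (⋃ i ∈ s, S i) x
  gcongr

theorem cs_real {ι : Type*} (s : Finset ι) (u v : ι → ℝ) (A B : ℝ) (hA : 0 ≤ A) (hB : 0 ≤ B)
    (hu : ∑ i ∈ s, u i ^ 2 ≤ A ^ 2) (hv : ∑ i ∈ s, v i ^ 2 ≤ B ^ 2) :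
    ∑ i ∈ s, u i * v i ≤ A * B := by
  calc ∑ i ∈ s, u i * v i ≤ √(∑ i ∈ s, u i ^ 2) * √(∑ i ∈ s, v i ^ 2) :=
        Real.sum_mul_le_sqrt_mul_sqrt _ _ _
    _ ≤ √(A ^ 2) * √(B ^ 2) := by
        apply mul_le_mul (Real.sqrt_le_sqrt hu) (Real.sqrt_le_sqrt hv) (Real.sqrt_nonneg _)
          (Real.sqrt_nonneg _)
    _ = A * B := by rw [Real.sqrt_sq hA, Real.sqrt_sq hB]

theorem band_norm_le {ι : Type*} (s : Finset ι) (S T : ι → Set ℕ)
    (hS : ∀ i ∈ s, ∀ j ∈ s, i ≠ j → Disjoint (S i) (S j))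
    (hT : ∀ i ∈ s, ∀ j ∈ s, i ≠ j → Disjoint (T i) (T j)) (b : L2 →L[ℂ] L2) :
    ‖∑ i ∈ s, pr (S i) * b * pr (T i)‖ ≤ ‖b‖ := by
  apply ContinuousLinearMap.opNorm_le_bound _ (norm_nonneg _)
  intro x
  obtain ⟨y, hy⟩ : ∃ y, y = (∑ i ∈ s, pr (S i) * b * pr (T i)) x := ⟨_, rfl⟩
  rw [← hy]
  have hy' : y = ∑ i ∈ s, pr (S i) (b (pr (T i) x)) := by
    rw [hy, sum_apply]
    rfl
  have e1 : ‖y‖ ^ 2 = ‖(inner ℂ y y : ℂ)‖ := by
    rw [inner_self_eq_norm_sq_to_K]
    simp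
  have e2 : (inner ℂ y y : ℂ) = ∑ i ∈ s, inner ℂ (pr (S i) y) (b (pr (T i) x)) := by
    have : (inner ℂ y y : ℂ) = inner ℂ y (∑ i ∈ s, pr (S i) (b (pr (T i) x))) := by
      rw [← hy']
    rw [this, inner_sum]
    apply Finset.sum_congr rfl
    intro i _
    rw [inner_pr]
  have e3 : ∑ i ∈ s, ‖pr (S i) y‖ * ‖pr (T i) x‖ ≤ ‖y‖ * ‖x‖ :=
    cs_real s _ _ _ _ (norm_nonneg _) (norm_nonneg _) (sum_sq_pr_le s S hS y)
      (sum_sq_pr_le s T hT x)
  have h1 : ‖y‖ ^ 2 ≤ ‖b‖ * (‖y‖ * ‖x‖) := by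
    rw [e1, e2]
    calc ‖∑ i ∈ s, (inner ℂ (pr (S i) y) (b (pr (T i) x)) : ℂ)‖
        ≤ ∑ i ∈ s, ‖(inner ℂ (pr (S i) y) (b (pr (T i) x)) : ℂ)‖ := norm_sum_le _ _
      _ ≤ ∑ i ∈ s, ‖b‖ * (‖pr (S i) y‖ * ‖pr (T i) x‖) := by
          apply Finset.sum_le_sum
          intro i _
          have h2 : ‖(inner ℂ (pr (S i) y) (b (pr (T i) x)) : ℂ)‖
              ≤ ‖pr (S i) y‖ * ‖b (pr (T i) x)‖ := norm_inner_le_norm _ _
          have h3 : ‖b (pr (T i) x)‖ ≤ ‖b‖ * ‖pr (T i) x‖ := ContinuousLinearMap.le_opNorm _ _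
          have h4 : 0 ≤ ‖pr (S i) y‖ := norm_nonneg _
          have h5 := mul_le_mul_of_nonneg_left h3 h4
          linarith
      _ = ‖b‖ * ∑ i ∈ s, ‖pr (S i) y‖ * ‖pr (T i) x‖ := by rw [Finset.mul_sum]
      _ ≤ ‖b‖ * (‖y‖ * ‖x‖) := mul_le_mul_of_nonneg_left e3 (norm_nonneg _)
  rcases eq_or_lt_of_le (norm_nonneg y) with hy0 | hy0
  · rw [← hy0]
    exact mul_nonneg (norm_nonneg _) (norm_nonneg _)
  · have h2 : ‖y‖ * ‖y‖ ≤ (‖b‖ * ‖x‖) * ‖y‖ := by
      rw [pow_two] at h1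
      linarith
    exact le_of_mul_le_mul_right h2 hy0

/-- Superlevel sets. -/
def lev (N : ℕ) (h : ℕ → ℝ) (r : ℕ) : Set ℕ := {j | (r : ℝ) ≤ N * h j}

theorem lev_anti (N : ℕ) (h : ℕ → ℝ) {r s : ℕ} (hrs : r ≤ s) : lev N h s ⊆ lev N h r := by
  intro j hj
  have : (r : ℝ) ≤ s := by exact_mod_cast hrs
  exact le_trans this hj

theorem corner_small (b : L2 →L[ℂ] L2) (N : ℕ) (hN : 0 < N) (ε : ℝ) (hε : 0 < ε) (f : ℕ → ℕ)
    (hf0 : ∀ j, j < f j)
    (hf1 : ∀ j, ‖pr (Set.Ici (f j)) * b * pr (Set.Iio j)‖ ≤ ε)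
    (hf2 : ∀ j, ‖pr (Set.Iio j) * b * pr (Set.Ici (f j))‖ ≤ ε)
    (h : ℕ → ℝ) (hanti : Antitone h)
    (hlim : Tendsto h atTop (𝓝 0)) (hslow : ∀ j, h j - h (f j) < 1 / (2 * N)) (q : ℕ) :
    ‖pr (lev N h q)ᶜ * b * pr (lev N h (q + 1))‖ ≤ ε ∧
      ‖pr (lev N h (q + 1)) * b * pr (lev N h q)ᶜ‖ ≤ ε := by
  have hN' : (0 : ℝ) < N := by exact_mod_cast hN
  have hfin : ∃ m, ∀ j ≥ m, j ∉ lev N h (q + 1) := by
    have : ∀ᶠ j in atTop, h j < 1 / N := hlim.eventually (gt_mem_nhds (by positivity))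
    rw [eventually_atTop] at this
    obtain ⟨m, hm⟩ := this
    refine ⟨m, fun j hj hmem => ?_⟩
    have h1 := hm j hj
    have h2 : ((q + 1 : ℕ) : ℝ) ≤ N * h j := hmem
    rw [lt_div_iff₀ hN'] at h1
    push_cast at h2
    have h3 : (0 : ℝ) ≤ q := by positivity
    nlinarith
  by_cases hne : (lev N h (q + 1)).Nonempty
  · classical
    obtain ⟨m, hm⟩ := hfin
    obtain ⟨j, hj, hjmax⟩ : ∃ j ∈ lev N h (q + 1), ∀ i ∈ lev N h (q + 1), i ≤ j := by
      have hfin' : (lev N h (q + 1)).Finite := by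
        apply (Set.finite_lt_nat m).subset
        intro i hi
        by_contra h'
        exact hm i (not_lt.mp h') hi
      obtain ⟨j, hj, hmax⟩ := hfin'.exists_maximal hne
      refine ⟨j, hj, fun i hi => ?_⟩
      by_contra h'
      exact h' (hmax hi (le_of_lt (not_le.mp h')))
    have hS : lev N h (q + 1) ⊆ Set.Iio (j + 1) := fun i hi => Nat.lt_succ_of_le (hjmax i hi)
    have hT : (lev N h q)ᶜ ⊆ Set.Ici (f (j + 1)) := by
      intro i hi
      by_contra h'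
      apply hi
      have hi' : i ≤ f (j + 1) := le_of_lt (not_le.mp h')
      have h1 : h (f (j + 1)) ≤ h i := hanti hi'
      have h2 := hslow (j + 1)
      have h3 : h (f j) ≤ h (j + 1) := hanti (hf0 j)
      have h4 := hslow j
      have h5 : ((q + 1 : ℕ) : ℝ) ≤ N * h j := hj
      push_cast at h5
      have h6 : h j < h i + 1 / N := by
        have : (1 : ℝ) / N = 1 / (2 * N) + 1 / (2 * N) := by field_simp; ring
        linarith
      have h7 : N * h j < N * h i + 1 := by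
        have := mul_lt_mul_of_pos_left h6 hN'
        have e : (N : ℝ) * (h i + 1 / N) = N * h i + 1 := by field_simp
        linarith
      show (q : ℝ) ≤ N * h i
      linarith
    exact ⟨(norm_corner_mono b hT hS).trans (hf1 _), (norm_corner_mono b hS hT).trans (hf2 _)⟩
  · rw [Set.not_nonempty_iff_eq_empty.mp hne, pr_empty]
    simp [hε.le]

theorem compl_split (N : ℕ) (h : ℕ → ℝ) (q : ℕ) :
    pr (lev N h (q + 1))ᶜ = pr (lev N h q)ᶜ + pr (lev N h q \ lev N h (q + 1)) := by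
  rw [← pr_union]
  · congr 1
    ext i
    have := lev_anti N h (Nat.le_succ q) (a := i)
    simp only [Set.mem_compl_iff, Set.mem_union, Set.mem_sdiff]
    tauto
  · rw [Set.disjoint_left]
    intro i hi hi'
    exact hi hi'.1

theorem self_split (N : ℕ) (h : ℕ → ℝ) (q : ℕ) :
    pr (lev N h q) = pr (lev N h q \ lev N h (q + 1)) + pr (lev N h (q + 1)) := by
  rw [← pr_union]
  · congr 1
    ext i
    have := lev_anti N h (Nat.le_succ q) (a := i)
    simp only [Set.mem_union, Set.mem_sdiff]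
    tauto
  · rw [Set.disjoint_left]
    intro i hi hi'
    exact hi.2 hi'

theorem annuli_disjoint (N : ℕ) (h : ℕ → ℝ) (i j : ℕ) (hij : i ≠ j) :
    Disjoint (lev N h i \ lev N h (i + 1)) (lev N h j \ lev N h (j + 1)) := by
  rw [Set.disjoint_left]
  rintro k ⟨h1, h2⟩ ⟨h3, h4⟩
  rcases lt_or_gt_of_ne hij with hlt | hlt
  · exact h2 (lev_anti N h hlt h3)
  · exact h4 (lev_anti N h hlt h1)

theorem comm_est (b : L2 →L[ℂ] L2) (N : ℕ) (hN : 0 < N) (ε : ℝ) (hε : 0 < ε) (f : ℕ → ℕ)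
    (hf0 : ∀ j, j < f j)
    (hf1 : ∀ j, ‖pr (Set.Ici (f j)) * b * pr (Set.Iio j)‖ ≤ ε)
    (hf2 : ∀ j, ‖pr (Set.Iio j) * b * pr (Set.Ici (f j))‖ ≤ ε)
    (h : ℕ → ℝ) (h01 : ∀ j, 0 ≤ h j ∧ h j ≤ 1) (hanti : Antitone h)
    (hlim : Tendsto h atTop (𝓝 0)) (hslow : ∀ j, h j - h (f j) < 1 / (2 * N))
    (hb : ∀ i, ‖((h i : ℝ) : ℂ)‖ ≤ 1) :
    ‖mulOp (fun i => (h i : ℂ)) hb * b - b * mulOp (fun i => (h i : ℂ)) hb‖
      ≤ 4 * ‖b‖ / N + 4 * ε := by
  have hN' : (0 : ℝ) < N := by exact_mod_cast hN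
  set M := mulOp (fun i => (h i : ℂ)) hb with hM
  set S : ℕ → Set ℕ := lev N h with hS
  set D : L2 →L[ℂ] L2 := ((1 / N : ℝ) : ℂ) • ∑ q ∈ Finset.range N, pr (S (q + 1)) with hD
  -- distance from M to D
  have hMD : ‖M - D‖ ≤ 1 / N := by
    apply ContinuousLinearMap.opNorm_le_bound _ (by positivity)
    intro x
    apply norm_le_of_coord _ _ _ (by positivity)
    intro i
    have hcount : ∀ K : ℕ, K ≤ ⌊N * h i⌋₊ →
        (∑ q ∈ Finset.range K, pr (S (q + 1)) x : L2) i = K * x i := by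
      intro K
      induction K with
      | zero => intro _; simp
      | succ K ih =>
        intro hK
        rw [Finset.sum_range_succ, lp.coeFn_add, Pi.add_apply, ih (by omega),
          pr_apply_mem]
        · push_cast
          ring
        · show ((K + 1 : ℕ) : ℝ) ≤ N * h i
          exact (Nat.le_floor_iff (mul_nonneg hN'.le (h01 i).1)).mp hK
    have hcount2 : ∀ K : ℕ, ⌊N * h i⌋₊ ≤ K →
        (∑ q ∈ Finset.range K, pr (S (q + 1)) x : L2) i = ⌊N * h i⌋₊ * x i := by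
      intro K hK
      induction K, hK using Nat.le_induction with
      | base => exact hcount _ le_rfl
      | succ K hK ih =>
        rw [Finset.sum_range_succ, lp.coeFn_add, Pi.add_apply, ih, pr_apply_not_mem, add_zero]
        intro hmem
        have h1 : ((K + 1 : ℕ) : ℝ) ≤ N * h i := hmem
        have h2 := (Nat.le_floor_iff (mul_nonneg hN'.le (h01 i).1)).mpr h1
        omega
    have hle : ⌊N * h i⌋₊ ≤ N := by
      have : (N : ℝ) * h i ≤ N := by
        have := (h01 i).2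
        nlinarith
      calc ⌊N * h i⌋₊ ≤ ⌊(N : ℝ)⌋₊ := Nat.floor_le_floor this
        _ = N := Nat.floor_natCast N
    have hval : ((M - D) x) i = ((h i - (⌊N * h i⌋₊ : ℝ) / N : ℝ) : ℂ) * x i := by
      rw [sub_apply, lp.coeFn_sub, Pi.sub_apply, hM, mulOp_apply, hD, smul_apply,
        lp.coeFn_smul, Pi.smul_apply, sum_apply, hcount2 N hle]
      push_cast
      simp only [smul_eq_mul]
      ring
    rw [hval, norm_mul]
    gcongr
    rw [Complex.norm_real, Real.norm_eq_abs, abs_le]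
    have h1 := Nat.floor_le (mul_nonneg hN'.le (h01 i).1)
    have h2 := Nat.lt_floor_add_one ((N : ℝ) * h i)
    constructor
    · have : (⌊(N : ℝ) * h i⌋₊ : ℝ) / N ≤ h i := by
        rw [div_le_iff₀ hN']
        linarith
      have : (0 : ℝ) < 1 / N := by positivity
      linarith
    · rw [sub_le_iff_le_add, ← add_div, le_div_iff₀ hN']
      linarith
  -- commutator with D
  have hsmall := corner_small b N hN ε hε f hf0 hf1 hf2 h hanti hlim hslow
  have hterm : ∀ q : ℕ, pr (S (q + 1)) * b - b * pr (S (q + 1)) =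
      pr (S (q + 1)) * b * pr (S (q + 1))ᶜ - pr (S (q + 1))ᶜ * b * pr (S (q + 1)) := by
    intro q
    have h1 : pr (S (q + 1)) * b = pr (S (q + 1)) * b * (pr (S (q + 1)) + pr (S (q + 1))ᶜ) := by
      rw [pr_add_compl, mul_one]
    have h2 : b * pr (S (q + 1)) = (pr (S (q + 1)) + pr (S (q + 1))ᶜ) * b * pr (S (q + 1)) := by
      rw [pr_add_compl, one_mul]
    calc pr (S (q + 1)) * b - b * pr (S (q + 1))
        = pr (S (q + 1)) * b * (pr (S (q + 1)) + pr (S (q + 1))ᶜ)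
          - (pr (S (q + 1)) + pr (S (q + 1))ᶜ) * b * pr (S (q + 1)) := by rw [← h1, ← h2]
      _ = _ := by rw [mul_add, add_mul, add_mul]; abel
  have hlow : ‖∑ q ∈ Finset.range N, pr (S (q + 1))ᶜ * b * pr (S (q + 1))‖
      ≤ ‖b‖ + 2 * N * ε := by
    have hdec : ∀ q : ℕ, pr (S (q + 1))ᶜ * b * pr (S (q + 1)) =
        pr (S q)ᶜ * b * pr (S (q + 1)) + (pr (S q \ S (q + 1)) * b * pr (S (q + 1 + 1)) +
          pr (S q \ S (q + 1)) * b * pr (S (q + 1) \ S (q + 1 + 1))) := by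
      intro q
      calc pr (S (q + 1))ᶜ * b * pr (S (q + 1))
          = pr (S q)ᶜ * b * pr (S (q + 1)) + pr (S q \ S (q + 1)) * b * pr (S (q + 1)) := by
            conv_lhs => rw [hS, compl_split, ← hS]
            rw [add_mul, add_mul]
        _ = pr (S q)ᶜ * b * pr (S (q + 1)) + pr (S q \ S (q + 1)) * b *
              (pr (S (q + 1) \ S (q + 1 + 1)) + pr (S (q + 1 + 1))) := by
            rw [hS, ← self_split N h (q + 1)]
        _ = _ := by rw [mul_add]; abel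
    rw [Finset.sum_congr rfl (fun q _ => hdec q), Finset.sum_add_distrib,
      Finset.sum_add_distrib]
    have e1 : ‖∑ q ∈ Finset.range N, pr (S q)ᶜ * b * pr (S (q + 1))‖ ≤ N * ε := by
      calc _ ≤ ∑ q ∈ Finset.range N, ‖pr (S q)ᶜ * b * pr (S (q + 1))‖ := norm_sum_le _ _
        _ ≤ ∑ q ∈ Finset.range N, ε := Finset.sum_le_sum (fun q _ => (hsmall q).1)
        _ = N * ε := by simp
    have e2 : ‖∑ q ∈ Finset.range N, pr (S q \ S (q + 1)) * b * pr (S (q + 1 + 1))‖ ≤ N * ε := by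
      calc _ ≤ ∑ q ∈ Finset.range N, ‖pr (S q \ S (q + 1)) * b * pr (S (q + 1 + 1))‖ :=
            norm_sum_le _ _
        _ ≤ ∑ q ∈ Finset.range N, ε := by
            apply Finset.sum_le_sum
            intro q _
            refine (norm_corner_mono b ?_ subset_rfl).trans (hsmall (q + 1)).1
            intro i hi
            exact hi.2
        _ = N * ε := by simp
    have e3 : ‖∑ q ∈ Finset.range N, pr (S q \ S (q + 1)) * b *
        pr (S (q + 1) \ S (q + 1 + 1))‖ ≤ ‖b‖ := by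
      apply band_norm_le
      · intro i _ j _ hij
        exact annuli_disjoint N h i j hij
      · intro i _ j _ hij
        exact annuli_disjoint N h (i + 1) (j + 1) (by omega)
    calc _ ≤ N * ε + (N * ε + ‖b‖) := by
          refine (norm_add_le _ _).trans ?_
          refine add_le_add e1 ?_
          exact (norm_add_le _ _).trans (add_le_add e2 e3)
      _ = _ := by ring
  have hup : ‖∑ q ∈ Finset.range N, pr (S (q + 1)) * b * pr (S (q + 1))ᶜ‖
      ≤ ‖b‖ + 2 * N * ε := by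
    have hdec : ∀ q : ℕ, pr (S (q + 1)) * b * pr (S (q + 1))ᶜ =
        pr (S (q + 1)) * b * pr (S q)ᶜ + (pr (S (q + 1 + 1)) * b * pr (S q \ S (q + 1)) +
          pr (S (q + 1) \ S (q + 1 + 1)) * b * pr (S q \ S (q + 1))) := by
      intro q
      calc pr (S (q + 1)) * b * pr (S (q + 1))ᶜ
          = pr (S (q + 1)) * b * pr (S q)ᶜ + pr (S (q + 1)) * b * pr (S q \ S (q + 1)) := by
            conv_lhs => rw [hS, compl_split, ← hS]
            rw [mul_add]
        _ = pr (S (q + 1)) * b * pr (S q)ᶜ + (pr (S (q + 1) \ S (q + 1 + 1)) +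
              pr (S (q + 1 + 1))) * b * pr (S q \ S (q + 1)) := by
            rw [hS, ← self_split N h (q + 1)]
        _ = _ := by rw [add_mul, add_mul]; abel
    rw [Finset.sum_congr rfl (fun q _ => hdec q), Finset.sum_add_distrib,
      Finset.sum_add_distrib]
    have e1 : ‖∑ q ∈ Finset.range N, pr (S (q + 1)) * b * pr (S q)ᶜ‖ ≤ N * ε := by
      calc _ ≤ ∑ q ∈ Finset.range N, ‖pr (S (q + 1)) * b * pr (S q)ᶜ‖ := norm_sum_le _ _
        _ ≤ ∑ q ∈ Finset.range N, ε := Finset.sum_le_sum (fun q _ => (hsmall q).2)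
        _ = N * ε := by simp
    have e2 : ‖∑ q ∈ Finset.range N, pr (S (q + 1 + 1)) * b * pr (S q \ S (q + 1))‖ ≤ N * ε := by
      calc _ ≤ ∑ q ∈ Finset.range N, ‖pr (S (q + 1 + 1)) * b * pr (S q \ S (q + 1))‖ :=
            norm_sum_le _ _
        _ ≤ ∑ q ∈ Finset.range N, ε := by
            apply Finset.sum_le_sum
            intro q _
            refine (norm_corner_mono b subset_rfl ?_).trans (hsmall (q + 1)).2
            intro i hi
            exact hi.2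
        _ = N * ε := by simp
    have e3 : ‖∑ q ∈ Finset.range N, pr (S (q + 1) \ S (q + 1 + 1)) * b *
        pr (S q \ S (q + 1))‖ ≤ ‖b‖ := by
      apply band_norm_le
      · intro i _ j _ hij
        exact annuli_disjoint N h (i + 1) (j + 1) (by omega)
      · intro i _ j _ hij
        exact annuli_disjoint N h i j hij
    calc _ ≤ N * ε + (N * ε + ‖b‖) := by
          refine (norm_add_le _ _).trans ?_
          refine add_le_add e1 ?_
          exact (norm_add_le _ _).trans (add_le_add e2 e3)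
      _ = _ := by ring
  have hDb : ‖D * b - b * D‖ ≤ 2 * ‖b‖ / N + 4 * ε := by
    have e : D * b - b * D = ((1 / N : ℝ) : ℂ) •
        (∑ q ∈ Finset.range N, pr (S (q + 1)) * b * pr (S (q + 1))ᶜ -
          ∑ q ∈ Finset.range N, pr (S (q + 1))ᶜ * b * pr (S (q + 1))) := by
      rw [hD, smul_mul_assoc, mul_smul_comm, ← smul_sub, Finset.sum_mul, Finset.mul_sum,
        ← Finset.sum_sub_distrib, ← Finset.sum_sub_distrib]
      congr 1
      exact Finset.sum_congr rfl (fun q _ => hterm q)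
    rw [e, norm_smul, Complex.norm_real, Real.norm_eq_abs, abs_of_pos (by positivity)]
    calc 1 / (N : ℝ) * _ ≤ 1 / N * ((‖b‖ + 2 * N * ε) + (‖b‖ + 2 * N * ε)) := by
          gcongr
          exact (norm_sub_le _ _).trans (add_le_add hup hlow)
      _ = 2 * ‖b‖ / N + 4 * ε := by field_simp; ring
  have hfinal : M * b - b * M = ((M - D) * b - b * (M - D)) + (D * b - b * D) := by
    rw [sub_mul, mul_sub]
    abel
  rw [hfinal]
  calc ‖((M - D) * b - b * (M - D)) + (D * b - b * D)‖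
      ≤ (‖M - D‖ * ‖b‖ + ‖b‖ * ‖M - D‖) + (2 * ‖b‖ / N + 4 * ε) := by
        refine (norm_add_le _ _).trans (add_le_add ?_ hDb)
        exact (norm_sub_le _ _).trans (add_le_add (norm_mul_le _ _) (norm_mul_le _ _))
    _ ≤ (1 / N * ‖b‖ + ‖b‖ * (1 / N)) + (2 * ‖b‖ / N + 4 * ε) := by gcongr
    _ = 4 * ‖b‖ / N + 4 * ε := by ring

end Pool.Agent.H86.Comm
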