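import Pool.Agent.H86.CommB

set_option autoImplicit false
open Filter Topology

namespace Pool.Agent.H86.Comm

/-- The tail supremum of a sequence. -/
noncomputable def tsup (h : ℕ → ℝ) (j : ℕ) : ℝ := ⨆ i : ℕ, h (j + i)

theorem bdd_tail {h : ℕ → ℝ} (h01 : ∀ j, 0 ≤ h j ∧ h j ≤ 1) (j : ℕ) :
    BddAbove (Set.range fun i : ℕ => h (j + i)) := by
  refine ⟨1, ?_⟩
  rintro _ ⟨i, rfl⟩
  exact (h01 _).2

theorem le_tsup {h : ℕ → ℝ} (h01 : ∀ j, 0 ≤ h j ∧ h j ≤ 1) {j k : ℕ} (hjk : j ≤ k) :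
    h k ≤ tsup h j := by
  have := le_ciSup (bdd_tail h01 j) (k - j)
  rwa [Nat.add_sub_cancel' hjk] at this

theorem tsup_01 {h : ℕ → ℝ} (h01 : ∀ j, 0 ≤ h j ∧ h j ≤ 1) (j : ℕ) :
    0 ≤ tsup h j ∧ tsup h j ≤ 1 :=
  ⟨(h01 j).1.trans (le_tsup h01 le_rfl), ciSup_le (fun _ => (h01 _).2)⟩

theorem tsup_anti {h : ℕ → ℝ} (h01 : ∀ j, 0 ≤ h j ∧ h j ≤ 1) : Antitone (tsup h) := by
  intro j k hjk
  apply ciSup_le
  intro i
  exact le_tsup h01 (by omega)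

theorem tsup_zero {h : ℕ → ℝ} (h01 : ∀ j, 0 ≤ h j ∧ h j ≤ 1) (h0 : h 0 = 1) : tsup h 0 = 1 := by
  apply le_antisymm (tsup_01 h01 0).2
  rw [← h0]
  exact le_tsup h01 le_rfl

theorem tsup_lim {h : ℕ → ℝ} (h01 : ∀ j, 0 ≤ h j ∧ h j ≤ 1) (hl : Tendsto h atTop (𝓝 0)) :
    Tendsto (tsup h) atTop (𝓝 0) := by
  rw [Metric.tendsto_atTop] at hl ⊢
  intro ε hε
  obtain ⟨N, hN⟩ := hl (ε / 2) (by positivity)
  refine ⟨N, fun n hn => ?_⟩
  rw [Real.dist_eq, sub_zero, abs_of_nonneg (tsup_01 h01 n).1]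
  have : tsup h n ≤ ε / 2 := by
    apply ciSup_le
    intro i
    have := hN (n + i) (by omega)
    rw [Real.dist_eq, sub_zero, abs_of_nonneg (h01 _).1] at this
    exact this.le
  linarith

theorem tsup_slow {h : ℕ → ℝ} (h01 : ∀ j, 0 ≤ h j ∧ h j ≤ 1) (f : ℕ → ℕ) (hf : StrictMono f)
    (δ : ℝ) (hδ : ∀ j, |h j - h (f j)| ≤ δ) (j : ℕ) : tsup h j - tsup h (f j) ≤ δ := by
  rw [sub_le_iff_le_add]
  apply ciSup_le
  intro i
  have h1 := (abs_le.mp (hδ (j + i))).2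
  have h2 : h (f (j + i)) ≤ tsup h (f j) := le_tsup h01 (hf.monotone (by omega))
  linarith

theorem exists_gauge (b : L2 →L[ℂ] L2) (ε : ℝ) (hε : 0 < ε) :
    ∃ f : ℕ → ℕ, StrictMono f ∧ (∀ j, j < f j) ∧
      (∀ j, ‖pr (Set.Ici (f j)) * b * pr (Set.Iio j)‖ ≤ ε) ∧
      (∀ j, ‖pr (Set.Iio j) * b * pr (Set.Ici (f j))‖ ≤ ε) := by
  choose m1 hm1 using fun j => tendsto_corner b j ε hε
  choose m2 hm2 using fun j => tendsto_corner' b j ε hε
  refine ⟨fun j => j + 1 + ∑ i ∈ Finset.range (j + 1), (m1 i + m2 i), ?_, ?_, ?_, ?_⟩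
  · apply strictMono_nat_of_lt_succ
    intro n
    rw [Finset.sum_range_succ _ (n + 1)]
    omega
  · intro j
    show j < j + 1 + _
    omega
  · intro j
    apply hm1 j
    have := Finset.single_le_sum (f := fun i => m1 i + m2 i) (s := Finset.range (j + 1))
      (fun _ _ => Nat.zero_le _) (Finset.self_mem_range_succ j)
    show m1 j ≤ j + 1 + _
    omega
  · intro j
    apply hm2 j
    have := Finset.single_le_sum (f := fun i => m1 i + m2 i) (s := Finset.range (j + 1))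
      (fun _ _ => Nat.zero_le _) (Finset.self_mem_range_succ j)
    show m2 j ≤ j + 1 + _
    omega

/-- Triviality of the relative commutant of the bounded operators in the ultrapower. -/
def TrivialCommutant (U : Ultrafilter ℕ) : Prop :=
  ∀ a : ℕ → (lp (fun _ : ℕ => ℂ) 2 →L[ℂ] lp (fun _ : ℕ => ℂ) 2),
    (∃ C : ℝ, ∀ n, ‖a n‖ ≤ C) →
    (∀ b : lp (fun _ : ℕ => ℂ) 2 →L[ℂ] lp (fun _ : ℕ => ℂ) 2,
      Tendsto (fun n => ‖a n * b - b * a n‖) (U : Filter ℕ) (𝓝 0)) →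
    ∃ c : ℂ, Tendsto
      (fun n => ‖a n - c • (1 : lp (fun _ : ℕ => ℂ) 2 →L[ℂ] lp (fun _ : ℕ => ℂ) 2)‖)
      (U : Filter ℕ) (𝓝 0)

/-- Flat ultrafilters. -/
def IsFlat (U : Ultrafilter ℕ) : Prop :=
  ∃ h : ℕ → ℕ → ℝ, (∀ n j, 0 ≤ h n j ∧ h n j ≤ 1) ∧ (∀ n, h n 0 = 1) ∧
    (∀ n, Tendsto (h n) atTop (𝓝 0)) ∧
    ∀ f : ℕ → ℕ, StrictMono f →
      Tendsto (fun n => ⨆ j, |h n j - h n (f j)|) (U : Filter ℕ) (𝓝 0)

theorem bdd_diff {h : ℕ → ℝ} (h01 : ∀ j, 0 ≤ h j ∧ h j ≤ 1) (f : ℕ → ℕ) :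
    BddAbove (Set.range fun j : ℕ => |h j - h (f j)|) := by
  refine ⟨1, ?_⟩
  rintro _ ⟨j, rfl⟩
  show |h j - h (f j)| ≤ 1
  rw [abs_le]
  have h1 := h01 j
  have h2 := h01 (f j)
  constructor <;> linarith

theorem not_trivial_of_flat (U : Ultrafilter ℕ) (hU : IsFlat U) : ¬ TrivialCommutant U := by
  obtain ⟨h, h01, h0, hlim, hslow⟩ := hU
  intro htriv
  set H : ℕ → ℕ → ℝ := fun n => tsup (h n) with hH
  have H01 : ∀ n j, 0 ≤ H n j ∧ H n j ≤ 1 := fun n j => tsup_01 (h01 n) j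
  have hb : ∀ n i, ‖((H n i : ℝ) : ℂ)‖ ≤ 1 := by
    intro n i
    rw [Complex.norm_real, Real.norm_eq_abs, abs_of_nonneg (H01 n i).1]
    exact (H01 n i).2
  have hcomm : ∀ b : L2 →L[ℂ] L2, Tendsto (fun n => ‖mulOp (fun i => (H n i : ℂ)) (hb n) * b -
      b * mulOp (fun i => (H n i : ℂ)) (hb n)‖) (U : Filter ℕ) (𝓝 0) := by
    intro b
    rw [Metric.tendsto_nhds]
    intro ε hε
    obtain ⟨N, hN⟩ := exists_nat_gt (16 * ‖b‖ / ε)
    have hN1 : 0 < N + 1 := Nat.succ_pos N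
    have hN' : (0 : ℝ) < ((N + 1 : ℕ) : ℝ) := by exact_mod_cast hN1
    obtain ⟨f, hfm, hf0, hf1, hf2⟩ := exists_gauge b (ε / 16) (by positivity)
    have hpos : (0 : ℝ) < 1 / (2 * ((N + 1 : ℕ) : ℝ)) / 2 := by positivity
    have hev := (hslow f hfm).eventually (ge_mem_nhds hpos)
    filter_upwards [hev] with n hn
    have hslow' : ∀ j, H n j - H n (f j) < 1 / (2 * ((N + 1 : ℕ) : ℝ)) := by
      intro j
      have h1 : ∀ j, |h n j - h n (f j)| ≤ 1 / (2 * ((N + 1 : ℕ) : ℝ)) / 2 := by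
        intro j
        exact (le_ciSup (bdd_diff (h01 n) f) j).trans hn
      have h2 := tsup_slow (h01 n) f hfm _ h1 j
      refine lt_of_le_of_lt h2 ?_
      linarith
    have hest := comm_est b (N + 1) hN1 (ε / 16) (by positivity) f hf0 hf1 hf2 (H n) (H01 n)
      (tsup_anti (h01 n)) (tsup_lim (h01 n) (hlim n)) hslow' (hb n)
    rw [Real.dist_eq, sub_zero, abs_of_nonneg (norm_nonneg _)]
    refine lt_of_le_of_lt hest ?_
    have h3 : 4 * ‖b‖ / ((N + 1 : ℕ) : ℝ) ≤ ε / 4 := by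
      rw [div_le_iff₀ hN']
      have h4 : 16 * ‖b‖ / ε < ((N + 1 : ℕ) : ℝ) := by
        push_cast
        linarith
      rw [div_lt_iff₀ hε] at h4
      linarith
    linarith
  obtain ⟨c, hc⟩ := htriv (fun n => mulOp (fun i => (H n i : ℂ)) (hb n))
    ⟨1, fun n => norm_mulOp_le _ _⟩ hcomm
  have hcoord : ∀ n j, ‖((H n j : ℝ) : ℂ) - c‖ ≤
      ‖mulOp (fun i => (H n i : ℂ)) (hb n) - c • (1 : L2 →L[ℂ] L2)‖ := by
    intro n j
    have h1 : ‖(mulOp (fun i => (H n i : ℂ)) (hb n) - c • (1 : L2 →L[ℂ] L2))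
        (lp.single 2 j (1 : ℂ))‖ ≤
        ‖mulOp (fun i => (H n i : ℂ)) (hb n) - c • (1 : L2 →L[ℂ] L2)‖ *
          ‖(lp.single 2 j (1 : ℂ) : L2)‖ := ContinuousLinearMap.le_opNorm _ _
    rw [lp.norm_single (by norm_num), norm_one, mul_one] at h1
    refine le_trans ?_ h1
    have h2 := lp.norm_apply_le_norm (p := 2) (by norm_num)
      ((mulOp (fun i => (H n i : ℂ)) (hb n) - c • (1 : L2 →L[ℂ] L2))
        (lp.single 2 j (1 : ℂ))) j
    refine le_trans (le_of_eq ?_) h2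
    congr 1
    rw [sub_apply, lp.coeFn_sub, Pi.sub_apply, mulOp_apply, smul_apply,
      lp.coeFn_smul, Pi.smul_apply, one_apply_eq_self, lp.single_apply_self, mul_one, smul_eq_mul,
      mul_one]
  have hone : ∀ n, 1 ≤ 2 * ‖mulOp (fun i => (H n i : ℂ)) (hb n) - c • (1 : L2 →L[ℂ] L2)‖ := by
    intro n
    set R := ‖mulOp (fun i => (H n i : ℂ)) (hb n) - c • (1 : L2 →L[ℂ] L2)‖
    have h1 : ‖(1 : ℂ) - c‖ ≤ R := by
      have := hcoord n 0
      have e : H n 0 = 1 := tsup_zero (h01 n) (h0 n)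
      rw [e] at this
      simpa using this
    have h2 : ‖c‖ ≤ R := by
      have hl : Tendsto (fun j => ‖((H n j : ℝ) : ℂ) - c‖) atTop (𝓝 ‖((0 : ℝ) : ℂ) - c‖) := by
        apply Tendsto.norm
        apply Tendsto.sub_const
        exact (Complex.continuous_ofReal.tendsto 0).comp (tsup_lim (h01 n) (hlim n))
      have := le_of_tendsto hl (Eventually.of_forall (hcoord n))
      simpa using this
    have h3 : (1 : ℝ) ≤ ‖(1 : ℂ) - c‖ + ‖c‖ := by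
      calc (1 : ℝ) = ‖((1 : ℂ) - c) + c‖ := by simp
        _ ≤ _ := norm_add_le _ _
    linarith
  have hlim2 := (hc.const_mul 2)
  rw [mul_zero] at hlim2
  have := ge_of_tendsto hlim2 (Eventually.of_forall hone)
  linarith

end Pool.Agent.H86.Comm
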