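import Pool.Agent.H86.CommC

set_option autoImplicit false
open Filter Topology

namespace Pool.Agent.H86.Comm

/-- Finitely supported vectors supported in `[j, ∞)`. -/
def FS (j : ℕ) : Set L2 := {x | ∃ M, ∀ i, (i < j ∨ M ≤ i) → x i = 0}

/-- The off-diagonal values of an operator on vectors supported in `[j, ∞)`. -/
def offSet (T : L2 →L[ℂ] L2) (j : ℕ) : Set ℝ :=
  {r | ∃ x y : L2, x ∈ FS j ∧ ‖x‖ = 1 ∧ ‖y‖ ≤ 1 ∧ inner ℂ x y = 0 ∧ r = ‖(inner ℂ y (T x) : ℂ)‖}

/-- The size of the off-diagonal part. -/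
noncomputable def g (T : L2 →L[ℂ] L2) (j : ℕ) : ℝ := sSup (offSet T j)

theorem FS_mono {i j : ℕ} (h : i ≤ j) : FS j ⊆ FS i := by
  rintro x ⟨M, hM⟩
  exact ⟨M, fun k hk => hM k (hk.imp_left (fun h' => lt_of_lt_of_le h' h))⟩

theorem single_mem_FS (j : ℕ) (c : ℂ) : (lp.single 2 j c : L2) ∈ FS j := by
  refine ⟨j + 1, fun i hi => ?_⟩
  rw [lp.single_apply_ne]
  omega

theorem add_mem_FS {j : ℕ} {x y : L2} (hx : x ∈ FS j) (hy : y ∈ FS j) : x + y ∈ FS j := by
  obtain ⟨M, hM⟩ := hx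
  obtain ⟨M', hM'⟩ := hy
  refine ⟨max M M', fun i hi => ?_⟩
  rw [lp.coeFn_add, Pi.add_apply, hM i (hi.imp_right (fun h => (le_max_left _ _).trans h)),
    hM' i (hi.imp_right (fun h => (le_max_right _ _).trans h)), add_zero]

theorem smul_mem_FS {j : ℕ} {x : L2} (c : ℂ) (hx : x ∈ FS j) : c • x ∈ FS j := by
  obtain ⟨M, hM⟩ := hx
  refine ⟨M, fun i hi => ?_⟩
  rw [lp.coeFn_smul, Pi.smul_apply, hM i hi, smul_zero]

theorem pr_mem_FS (m : ℕ) (x : L2) : pr (Set.Iio m) x ∈ FS 0 := by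
  refine ⟨m, fun i hi => ?_⟩
  rcases hi with hi | hi
  · exact absurd hi (Nat.not_lt_zero _)
  · exact pr_apply_not_mem (fun h => absurd (Set.mem_Iio.mp h) (not_lt.mpr hi)) x

theorem zero_mem_offSet (T : L2 →L[ℂ] L2) (j : ℕ) : 0 ∈ offSet T j := by
  refine ⟨lp.single 2 j 1, 0, single_mem_FS _ _, ?_, by simp, by simp, by simp⟩
  rw [lp.norm_single (by norm_num), norm_one]

theorem offSet_le (T : L2 →L[ℂ] L2) (j : ℕ) {r : ℝ} (hr : r ∈ offSet T j) : r ≤ ‖T‖ := by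
  obtain ⟨x, y, _, hx, hy, _, rfl⟩ := hr
  have h1 : ‖(inner ℂ y (T x) : ℂ)‖ ≤ ‖y‖ * ‖T x‖ := norm_inner_le_norm _ _
  have h2 : ‖T x‖ ≤ ‖T‖ * ‖x‖ := ContinuousLinearMap.le_opNorm _ _
  rw [hx, mul_one] at h2
  have h3 : 0 ≤ ‖T x‖ := norm_nonneg _
  nlinarith [norm_nonneg y]

theorem bdd_offSet (T : L2 →L[ℂ] L2) (j : ℕ) : BddAbove (offSet T j) :=
  ⟨‖T‖, fun _ hr => offSet_le T j hr⟩

theorem offSet_anti (T : L2 →L[ℂ] L2) {i j : ℕ} (h : i ≤ j) : offSet T j ⊆ offSet T i := by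
  rintro r ⟨x, y, hx, h1⟩
  exact ⟨x, y, FS_mono h hx, h1⟩

theorem g_nonneg (T : L2 →L[ℂ] L2) (j : ℕ) : 0 ≤ g T j :=
  le_csSup (bdd_offSet T j) (zero_mem_offSet T j)

theorem g_anti (T : L2 →L[ℂ] L2) : Antitone (g T) := fun _ _ h =>
  csSup_le_csSup (bdd_offSet T _) ⟨0, zero_mem_offSet T _⟩ (offSet_anti T h)

theorem le_g {T : L2 →L[ℂ] L2} {j : ℕ} {x y : L2} (hx : x ∈ FS j) (hx1 : ‖x‖ = 1) (hy1 : ‖y‖ ≤ 1)
    (hxy : (inner ℂ x y : ℂ) = 0) : ‖(inner ℂ y (T x) : ℂ)‖ ≤ g T j :=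
  le_csSup (bdd_offSet T j) ⟨x, y, hx, hx1, hy1, hxy, rfl⟩

theorem le_g' {T : L2 →L[ℂ] L2} {j : ℕ} {x y : L2} (hx : x ∈ FS j)
    (hxy : (inner ℂ x y : ℂ) = 0) : ‖(inner ℂ y (T x) : ℂ)‖ ≤ g T j * (‖x‖ * ‖y‖) := by
  by_cases hx0 : x = 0
  · simp [hx0]
  by_cases hy0 : y = 0
  · simp [hy0]
  have hx' : ‖x‖ ≠ 0 := norm_ne_zero_iff.mpr hx0
  have hy' : ‖y‖ ≠ 0 := norm_ne_zero_iff.mpr hy0
  have h := le_g (T := T) (j := j) (x := ((‖x‖⁻¹ : ℝ) : ℂ) • x) (y := ((‖y‖⁻¹ : ℝ) : ℂ) • y)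
    (smul_mem_FS _ hx)
    (by rw [norm_smul, Complex.norm_real, Real.norm_eq_abs, abs_of_nonneg (by positivity),
          inv_mul_cancel₀ hx'])
    (by rw [norm_smul, Complex.norm_real, Real.norm_eq_abs, abs_of_nonneg (by positivity),
          inv_mul_cancel₀ hy'])
    (by rw [inner_smul_left, inner_smul_right, hxy]; simp)
  rw [map_smul, inner_smul_left, inner_smul_right, Complex.conj_ofReal, norm_mul, norm_mul,
    Complex.norm_real, Complex.norm_real, Real.norm_eq_abs, Real.norm_eq_abs,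
    abs_of_nonneg (by positivity), abs_of_nonneg (by positivity)] at h
  have hpx : 0 < ‖x‖ := lt_of_le_of_ne (norm_nonneg _) (Ne.symm hx')
  have hpy : 0 < ‖y‖ := lt_of_le_of_ne (norm_nonneg _) (Ne.symm hy')
  rw [inv_mul_le_iff₀ hpy, inv_mul_le_iff₀ hpx] at h
  linarith

/-- If the off-diagonal values are small then the operator is near a scalar. -/
theorem near_scalar (T : L2 →L[ℂ] L2) :
    ‖T - (inner ℂ (lp.single 2 0 (1 : ℂ) : L2) (T (lp.single 2 0 (1 : ℂ))) : ℂ) •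
      (1 : L2 →L[ℂ] L2)‖ ≤ 8 * g T 0 := by
  set e : L2 := lp.single 2 0 (1 : ℂ) with he
  set l : ℂ := inner ℂ e (T e) with hl
  set G := g T 0 with hG
  have hG0 : 0 ≤ G := g_nonneg T 0
  have hen : ‖e‖ = 1 := by rw [he, lp.norm_single (by norm_num), norm_one]
  have heF : e ∈ FS 0 := single_mem_FS 0 1
  -- unit vectors are near eigenvectors
  have hA : ∀ x ∈ FS 0, ‖x‖ = 1 → ‖T x - (inner ℂ x (T x) : ℂ) • x‖ ≤ G := by
    intro x hx hx1
    set u := T x - (inner ℂ x (T x) : ℂ) • x with hu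
    have hxu : (inner ℂ x u : ℂ) = 0 := by
      rw [hu, inner_sub_right, inner_smul_right, inner_self_eq_norm_sq_to_K, hx1]
      simp
    have hux : (inner ℂ u x : ℂ) = 0 := by
      rw [← inner_conj_symm, hxu, map_zero]
    have huT : (inner ℂ u (T x) : ℂ) = inner ℂ u u := by
      have : T x = u + (inner ℂ x (T x) : ℂ) • x := by rw [hu]; abel
      conv_lhs => rw [this]
      rw [inner_add_right, inner_smul_right, hux, mul_zero, add_zero]
    have h1 := le_g' (T := T) (j := 0) hx hxu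
    rw [huT, hx1, one_mul, inner_self_eq_norm_sq_to_K] at h1
    have h2 : ‖u‖ ^ 2 ≤ G * ‖u‖ := by
      simpa using h1
    rcases eq_or_lt_of_le (norm_nonneg u) with h0 | h0
    · rw [← h0]; exact hG0
    · rw [pow_two] at h2
      exact le_of_mul_le_mul_right h2 h0
  -- compare eigenvalues
  have hB : ∀ w ∈ FS 0, ‖w‖ = 1 → (inner ℂ e w : ℂ) = 0 → ‖(inner ℂ w (T w) : ℂ) - l‖ ≤ 6 * G := by
    intro w hw hw1 hew
    have hwe : (inner ℂ w e : ℂ) = 0 := by rw [← inner_conj_symm, hew, map_zero]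
    have h1 := le_g' (T := T) (j := 0) (x := e + w) (y := e - w) (add_mem_FS heF hw) (by
      rw [inner_sub_right, inner_add_left, inner_add_left, hwe, hew,
        inner_self_eq_norm_sq_to_K, inner_self_eq_norm_sq_to_K, hen, hw1]
      simp)
    have h2 : ‖e + w‖ ≤ 2 := by
      calc ‖e + w‖ ≤ ‖e‖ + ‖w‖ := norm_add_le _ _
        _ = 2 := by rw [hen, hw1]; norm_num
    have h3 : ‖e - w‖ ≤ 2 := by
      calc ‖e - w‖ ≤ ‖e‖ + ‖w‖ := norm_sub_le _ _
        _ = 2 := by rw [hen, hw1]; norm_num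
    have h4 : ‖(inner ℂ (e - w) (T (e + w)) : ℂ)‖ ≤ 4 * G := by
      refine h1.trans ?_
      have : ‖e + w‖ * ‖e - w‖ ≤ 2 * 2 := mul_le_mul h2 h3 (norm_nonneg _) (by norm_num)
      nlinarith
    have h5 : ‖(inner ℂ w (T e) : ℂ)‖ ≤ G := by
      have := le_g' (T := T) (j := 0) heF hew
      rwa [hen, hw1, one_mul, mul_one] at this
    have h6 : ‖(inner ℂ e (T w) : ℂ)‖ ≤ G := by
      have := le_g' (T := T) (j := 0) hw hwe
      rwa [hen, hw1, one_mul, mul_one] at this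
    have h7 : (inner ℂ w (T w) : ℂ) - l = inner ℂ e (T w) - inner ℂ w (T e) -
        inner ℂ (e - w) (T (e + w)) := by
      rw [hl, map_add, inner_add_right, inner_sub_left, inner_sub_left]
      ring
    rw [h7]
    calc _ ≤ ‖(inner ℂ e (T w) : ℂ) - inner ℂ w (T e)‖ + ‖(inner ℂ (e - w) (T (e + w)) : ℂ)‖ :=
          norm_sub_le _ _
      _ ≤ (G + G) + 4 * G := by
          refine add_le_add ?_ h4
          exact (norm_sub_le _ _).trans (add_le_add h6 h5)
      _ = 6 * G := by ring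
  -- vectors orthogonal to e
  have hC : ∀ w ∈ FS 0, (inner ℂ e w : ℂ) = 0 → ‖T w - l • w‖ ≤ 7 * G * ‖w‖ := by
    intro w hw hew
    by_cases hw0 : w = 0
    · simp [hw0]
    have hw' : ‖w‖ ≠ 0 := norm_ne_zero_iff.mpr hw0
    have hpw : 0 < ‖w‖ := lt_of_le_of_ne (norm_nonneg _) (Ne.symm hw')
    set w1 : L2 := ((‖w‖⁻¹ : ℝ) : ℂ) • w with hw1def
    have hw1n : ‖w1‖ = 1 := by
      rw [hw1def, norm_smul, Complex.norm_real, Real.norm_eq_abs, abs_of_nonneg (by positivity),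
          inv_mul_cancel₀ hw']
    have hw1F : w1 ∈ FS 0 := smul_mem_FS _ hw
    have hew1 : (inner ℂ e w1 : ℂ) = 0 := by rw [hw1def, inner_smul_right, hew, mul_zero]
    have h1 := hA w1 hw1F hw1n
    have h2 := hB w1 hw1F hw1n hew1
    have h3 : ‖T w1 - l • w1‖ ≤ 7 * G := by
      have : T w1 - l • w1 = (T w1 - (inner ℂ w1 (T w1) : ℂ) • w1) +
          ((inner ℂ w1 (T w1) : ℂ) - l) • w1 := by
        rw [sub_smul]; abel
      rw [this]
      calc _ ≤ G + 6 * G := by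
            refine (norm_add_le _ _).trans (add_le_add h1 ?_)
            rw [norm_smul, hw1n, mul_one]
            exact h2
        _ = 7 * G := by ring
    have h4 : T w1 - l • w1 = ((‖w‖⁻¹ : ℝ) : ℂ) • (T w - l • w) := by
      rw [hw1def, map_smul, smul_sub, smul_comm l]
    rw [h4, norm_smul, Complex.norm_real, Real.norm_eq_abs, abs_of_nonneg (by positivity),
      inv_mul_le_iff₀ hpw] at h3
    linarith
  -- finitely supported vectors
  have hD : ∀ z ∈ FS 0, ‖T z - l • z‖ ≤ 8 * G * ‖z‖ := by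
    intro z hz
    set α : ℂ := inner ℂ e z with hα
    set w : L2 := z + (-α) • e with hw
    have hwF : w ∈ FS 0 := add_mem_FS hz (smul_mem_FS _ heF)
    have hew : (inner ℂ e w : ℂ) = 0 := by
      rw [hw, inner_add_right, inner_smul_right, inner_self_eq_norm_sq_to_K, hen]
      simp [hα]
    have hαn : ‖α‖ ≤ ‖z‖ := by
      have := norm_inner_le_norm (𝕜 := ℂ) e z
      rwa [hen, one_mul] at this
    have hwn : ‖w‖ ≤ ‖z‖ := by
      have hz' : z = w + α • e := by rw [hw]; simp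
      have horth : (inner ℂ w (α • e) : ℂ) = 0 := by
        rw [inner_smul_right, ← inner_conj_symm, hew]
        simp
      have h1 := norm_add_sq_eq_norm_sq_add_norm_sq_of_inner_eq_zero (𝕜 := ℂ) w (α • e) horth
      rw [← hz'] at h1
      apply le_of_sq_le_sq _ (norm_nonneg _)
      nlinarith [norm_nonneg (α • e)]
    have h1 := hA e heF hen
    have h2 := hC w hwF hew
    have h3 : T z - l • z = α • (T e - l • e) + (T w - l • w) := by
      have hz' : z = w + α • e := by rw [hw]; simp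
      conv_lhs => rw [hz']
      rw [map_add, map_smul, smul_add, smul_sub, smul_comm l α]
      abel
    rw [h3]
    calc _ ≤ ‖z‖ * G + 7 * G * ‖z‖ := by
          refine (norm_add_le _ _).trans (add_le_add ?_ ?_)
          · rw [norm_smul]
            exact mul_le_mul hαn h1 (norm_nonneg _) (norm_nonneg _)
          · refine h2.trans ?_
            exact mul_le_mul_of_nonneg_left hwn (by positivity)
      _ = 8 * G * ‖z‖ := by ring
  -- conclusion by density
  apply ContinuousLinearMap.opNorm_le_bound _ (by positivity)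
  intro z
  have hlim : Tendsto (fun m => pr (Set.Iio m) z) atTop (𝓝 z) := by
    have h := tendsto_trunc z
    have h2 : Tendsto (fun m => z - pr (Set.Ici m) z) atTop (𝓝 (z - 0)) :=
      tendsto_const_nhds.sub h
    rw [sub_zero] at h2
    refine h2.congr (fun m => ?_)
    have h3 := pr_add_compl (Set.Iio m)
    rw [Set.compl_Iio] at h3
    have h4 : pr (Set.Iio m) z + pr (Set.Ici m) z = z := by
      rw [← add_apply, h3, one_apply_eq_self]
    rw [sub_eq_iff_eq_add]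
    exact h4.symm
  have h1 : Tendsto (fun m => ‖(T - l • (1 : L2 →L[ℂ] L2)) (pr (Set.Iio m) z)‖) atTop
      (𝓝 ‖(T - l • (1 : L2 →L[ℂ] L2)) z‖) :=
    (((T - l • (1 : L2 →L[ℂ] L2)).continuous.tendsto z).comp hlim).norm
  have h2 : Tendsto (fun m => 8 * G * ‖pr (Set.Iio m) z‖) atTop (𝓝 (8 * G * ‖z‖)) :=
    hlim.norm.const_mul _
  refine le_of_tendsto_of_tendsto h1 h2 (Eventually.of_forall (fun m => ?_))
  have := hD _ (pr_mem_FS m z)
  simpa using this

end Pool.Agent.H86.Comm
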