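import Pool.Agent.H86.CommD

set_option autoImplicit false
open Filter Topology

namespace Pool.Agent.H86.Comm

/-- The isometry attached to an orthonormal sequence. -/
noncomputable def iso (v : ℕ → L2) (hv : Orthonormal ℂ v) : L2 →ₗᵢ[ℂ] L2 :=
  hv.orthogonalFamily.linearIsometry

theorem iso_single (v : ℕ → L2) (hv : Orthonormal ℂ v) (i : ℕ) (c : ℂ) :
    iso v hv (lp.single 2 i c) = c • v i := by
  have := hv.orthogonalFamily.linearIsometry_apply_single (i := i) c
  rw [iso, this]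
  rfl

theorem finsupp_eq_sum {x : L2} {M : ℕ} (hM : ∀ i, M ≤ i → x i = 0) :
    x = ∑ i ∈ Finset.range M, lp.single 2 i (x i) := by
  ext k
  rw [lp.coeFn_sum, Finset.sum_apply]
  by_cases hk : k < M
  · rw [Finset.sum_eq_single k, lp.single_apply_self]
    · intro i _ hik
      rw [lp.single_apply_ne _ _ _ (fun h => hik h.symm)]
    · intro h
      exact absurd (Finset.mem_range.mpr hk) h
  · rw [hM k (not_lt.mp hk), Finset.sum_eq_zero]
    intro i hi
    rw [lp.single_apply_ne]
    rintro rfl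
    exact hk (Finset.mem_range.mp hi)

theorem iso_finsupp (v : ℕ → L2) (hv : Orthonormal ℂ v) {x : L2} {M : ℕ}
    (hM : ∀ i, M ≤ i → x i = 0) : iso v hv x = ∑ i ∈ Finset.range M, x i • v i := by
  conv_lhs => rw [finsupp_eq_sum hM]
  rw [map_sum]
  exact Finset.sum_congr rfl (fun i _ => iso_single v hv i _)

theorem orthonormal_shift (f : ℕ → ℕ) (hf : Function.Injective f) :
    Orthonormal ℂ (fun i => (lp.single 2 (f i) (1 : ℂ) : L2)) := by
  constructor
  · intro i
    rw [lp.norm_single (by norm_num), norm_one]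
  · intro i j hij
    rw [lp.inner_single_left, lp.single_apply_ne _ _ _ (fun h => hij (hf h)), inner_zero_right]

/-- The shift isometry. -/
noncomputable def sh (f : ℕ → ℕ) (hf : StrictMono f) : L2 →ₗᵢ[ℂ] L2 :=
  iso _ (orthonormal_shift f hf.injective)

theorem sh_mem_FS (f : ℕ → ℕ) (hf : StrictMono f) {j : ℕ} {x : L2} (hx : x ∈ FS j) :
    sh f hf x ∈ FS (f j) := by
  obtain ⟨M, hM⟩ := hx
  refine ⟨f M, fun k hk => ?_⟩
  rw [sh, iso_finsupp _ _ (M := M) (fun i hi => hM i (Or.inr hi)), lp.coeFn_sum, Finset.sum_apply]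
  apply Finset.sum_eq_zero
  intro i hi
  rw [lp.coeFn_smul, Pi.smul_apply]
  by_cases hki : k = f i
  · rcases hk with hk | hk
    · rw [hki] at hk
      rw [hM i (Or.inl (hf.lt_iff_lt.mp hk)), zero_smul]
    · rw [hki] at hk
      have := hf.le_iff_le.mp hk
      have := Finset.mem_range.mp hi
      omega
  · rw [lp.single_apply_ne _ _ _ hki, smul_zero]

theorem g_slow (T : L2 →L[ℂ] L2) (f : ℕ → ℕ) (hf : StrictMono f) (j : ℕ) :
    g T j ≤ g T (f j) + ‖T * (sh f hf).toContinuousLinearMap -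
      (sh f hf).toContinuousLinearMap * T‖ := by
  apply csSup_le ⟨0, zero_mem_offSet T j⟩
  rintro r ⟨x, y, hx, hx1, hy1, hxy, rfl⟩
  set V := (sh f hf).toContinuousLinearMap with hV
  set K := ‖T * V - V * T‖ with hK
  have h1 : ‖(inner ℂ (sh f hf y) (T (sh f hf x)) : ℂ)‖ ≤ g T (f j) := by
    apply le_g (sh_mem_FS f hf hx)
    · rw [LinearIsometry.norm_map, hx1]
    · rw [LinearIsometry.norm_map]; exact hy1
    · rw [LinearIsometry.inner_map_map, hxy]
  have h2 : T (sh f hf x) = sh f hf (T x) + (T * V - V * T) x := by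
    rw [sub_apply, mul_apply_eq_comp, mul_apply_eq_comp]
    show T (sh f hf x) = sh f hf (T x) + (T (sh f hf x) - sh f hf (T x))
    abel
  have h3 : (inner ℂ y (T x) : ℂ) = inner ℂ (sh f hf y) (T (sh f hf x)) -
      inner ℂ (sh f hf y) ((T * V - V * T) x) := by
    rw [h2, inner_add_right, LinearIsometry.inner_map_map]
    ring
  have h4 : ‖(inner ℂ (sh f hf y) ((T * V - V * T) x) : ℂ)‖ ≤ K := by
    refine (norm_inner_le_norm _ _).trans ?_
    rw [LinearIsometry.norm_map]
    have : ‖(T * V - V * T) x‖ ≤ K * ‖x‖ := ContinuousLinearMap.le_opNorm _ _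
    rw [hx1, mul_one] at this
    have h5 : 0 ≤ K := norm_nonneg _
    nlinarith [norm_nonneg y, norm_nonneg ((T * V - V * T) x)]
  rw [h3]
  exact (norm_sub_le _ _).trans (add_le_add h1 h4)

theorem far_small (z : L2) (δ : ℝ) (hδ : 0 < δ) :
    ∃ J, ∀ j ≥ J, ∀ x ∈ FS j, ‖x‖ = 1 → ‖(inner ℂ x z : ℂ)‖ ≤ δ := by
  have h' := (tendsto_zero_iff_norm_tendsto_zero.mp (tendsto_trunc z)).eventually
      (ge_mem_nhds hδ)
  rw [eventually_atTop] at h'
  obtain ⟨J, hJ⟩ := h'
  refine ⟨J, fun j hj x hx hx1 => ?_⟩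
  have hx' : pr (Set.Ici j) x = x := by
    obtain ⟨M, hM⟩ := hx
    ext i
    by_cases hi : i ∈ Set.Ici j
    · rw [pr_apply_mem hi]
    · rw [pr_apply_not_mem hi, hM i (Or.inl (not_le.mp hi))]
  rw [← hx', inner_pr]
  refine (norm_inner_le_norm _ _).trans ?_
  rw [hx1, one_mul]
  exact hJ j hj

theorem seq_choice {α : Type*} [Inhabited α] (R : ℕ → (ℕ → α) → α → Prop)
    (h : ∀ n u, ∃ y, R n u y)
    (hcongr : ∀ n u u' y, (∀ m < n, u m = u' m) → R n u y → R n u' y) :
    ∃ u : ℕ → α, ∀ n, R n u (u n) := by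
  classical
  choose F hF using h
  let W : ℕ → (ℕ → α) := fun n => Nat.rec (fun _ => default)
    (fun k w => Function.update w k (F k w)) n
  have hW : ∀ n, W (n + 1) = Function.update (W n) n (F n (W n)) := fun n => rfl
  have hstable : ∀ n m, m < n → W n m = W (m + 1) m := by
    intro n
    induction n with
    | zero => intro m hm; omega
    | succ n ih =>
      intro m hm
      rcases Nat.lt_succ_iff_lt_or_eq.mp hm with h1 | h1
      · rw [hW, Function.update_of_ne (by omega), ih m h1]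
      · subst h1
        rfl
  refine ⟨fun n => W (n + 1) n, fun n => ?_⟩
  have h1 : W (n + 1) n = F n (W n) := by rw [hW, Function.update_self]
  show R n (fun n => W (n + 1) n) (W (n + 1) n)
  rw [h1]
  exact hcongr n (W n) _ _ (fun m hm => hstable n m hm) (hF n (W n))

theorem norm_le_of_coord_bound (y : L2) (δ : ℝ) (h : ∀ m, ‖y m‖ ≤ δ * (1 / 2) ^ m) :
    ‖y‖ ≤ 2 * δ := by
  have h1 := lp.hasSum_single (p := 2) (by norm_num) y
  have h2 : HasSum (fun m : ℕ => δ * (1 / 2 : ℝ) ^ m) (δ * 2) :=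
    (hasSum_geometric_two).mul_left δ
  have h3 := h1.norm_le_of_bounded h2 (fun m => by
    rw [lp.norm_single (by norm_num)]
    exact h m)
  linarith

end Pool.Agent.H86.Comm
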