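import Pool.Agent.H86.CommE

set_option autoImplicit false
open Filter Topology

namespace Pool.Agent.H86.Comm

/-- The relation used in the recursive construction of the test projection. -/
def RR (a : ℕ → (L2 →L[ℂ] L2)) (A : Set ℕ) (η : ℝ) (n : ℕ) (u : ℕ → L2 × L2) (p : L2 × L2) :
    Prop :=
  p.1 ∈ FS 0 ∧ ((∀ m < n, (u m).1 ∈ FS 0) → (‖p.1‖ = 1 ∧ ‖p.2‖ ≤ 1 ∧
    (inner ℂ p.1 p.2 : ℂ) = 0 ∧ (n ∈ A → η < ‖(inner ℂ p.2 (a n p.1) : ℂ)‖) ∧
    ∀ m < n, (inner ℂ (u m).1 p.1 : ℂ) = 0 ∧
      ‖(inner ℂ p.1 (a m (u m).1) : ℂ)‖ ≤ η / 8 * (1 / 2) ^ n ∧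
      ‖(inner ℂ (u m).1 (a n p.1) : ℂ)‖ ≤ η / 8 * (1 / 2) ^ n))

theorem RR_exists (a : ℕ → (L2 →L[ℂ] L2)) (A : Set ℕ) (η : ℝ) (hη : 0 < η)
    (hA : ∀ n ∈ A, ∀ j, ∃ r ∈ offSet (a n) j, η < r) (n : ℕ) (u : ℕ → L2 × L2) :
    ∃ p, RR a A η n u p := by
  by_cases hu : ∀ m < n, (u m).1 ∈ FS 0
  · have hδ : 0 < η / 8 * (1 / 2 : ℝ) ^ n := by positivity
    choose J1 hJ1 using fun m => far_small (a m (u m).1) _ hδ
    choose J2 hJ2 using fun m => far_small (ContinuousLinearMap.adjoint (a n) (u m).1) _ hδ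
    have hsupp : ∀ m, ∃ M, m < n → ∀ i, M ≤ i → (u m).1 i = 0 := by
      intro m
      by_cases hm : m < n
      · obtain ⟨M, hM⟩ := hu m hm
        exact ⟨M, fun _ i hi => hM i (Or.inr hi)⟩
      · exact ⟨0, fun h => absurd h hm⟩
    choose M hM using hsupp
    set J := ∑ m ∈ Finset.range n, (J1 m + J2 m + M m) with hJ
    have hJle : ∀ m < n, J1 m + J2 m + M m ≤ J := fun m hm =>
      Finset.single_le_sum (f := fun m => J1 m + J2 m + M m) (fun _ _ => Nat.zero_le _)
        (Finset.mem_range.mpr hm)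
    have hcond : ∀ x ∈ FS J, ‖x‖ = 1 → ∀ m < n, (inner ℂ (u m).1 x : ℂ) = 0 ∧
        ‖(inner ℂ x (a m (u m).1) : ℂ)‖ ≤ η / 8 * (1 / 2) ^ n ∧
        ‖(inner ℂ (u m).1 (a n x) : ℂ)‖ ≤ η / 8 * (1 / 2) ^ n := by
      intro x hx hx1 m hm
      have hle := hJle m hm
      refine ⟨?_, hJ1 m J (by omega) x hx hx1, ?_⟩
      · rw [lp.inner_eq_tsum]
        convert tsum_zero with i
        obtain ⟨K, hK⟩ := hx
        by_cases hi : i < J
        · rw [hK i (Or.inl hi), inner_zero_right]
        · rw [hM m hm i (by omega), inner_zero_left]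
      · have h1 := hJ2 m J (by omega) x hx hx1
        have h2 : (inner ℂ (u m).1 (a n x) : ℂ) =
            inner ℂ (ContinuousLinearMap.adjoint (a n) (u m).1) x := by
          rw [ContinuousLinearMap.adjoint_inner_left]
        rw [h2, ← inner_conj_symm, RCLike.norm_conj]
        exact h1
    by_cases hn : n ∈ A
    · obtain ⟨r, ⟨x, y, hx, hx1, hy1, hxy, rfl⟩, hr⟩ := hA n hn J
      exact ⟨(x, y), FS_mono (Nat.zero_le _) hx, fun _ =>
        ⟨hx1, hy1, hxy, fun _ => hr, hcond x hx hx1⟩⟩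
    · refine ⟨(lp.single 2 J 1, 0), FS_mono (Nat.zero_le _) (single_mem_FS J 1), fun _ =>
        ⟨?_, by simp, by simp, fun h => absurd h hn, hcond _ (single_mem_FS J 1) ?_⟩⟩ <;>
      rw [lp.norm_single (by norm_num), norm_one]
  · exact ⟨(lp.single 2 0 1, 0), single_mem_FS 0 1, fun h => absurd h hu⟩

theorem test_operator (a : ℕ → (L2 →L[ℂ] L2)) (A : Set ℕ) (η : ℝ) (hη : 0 < η)
    (hA : ∀ n ∈ A, ∀ j, ∃ r ∈ offSet (a n) j, η < r) :
    ∃ b : L2 →L[ℂ] L2, ∀ n ∈ A, η / 2 ≤ ‖a n * b - b * a n‖ := by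
  have : Inhabited (L2 × L2) := ⟨(0, 0)⟩
  obtain ⟨u, hu⟩ := seq_choice (RR a A η) (RR_exists a A η hη hA) (by
    intro n u u' p huu' hp
    refine ⟨hp.1, fun h => ?_⟩
    have h' : ∀ m < n, (u m).1 ∈ FS 0 := fun m hm => by rw [huu' m hm]; exact h m hm
    obtain ⟨h1, h2, h3, h4, h5⟩ := hp.2 h'
    refine ⟨h1, h2, h3, h4, fun m hm => ?_⟩
    rw [← huu' m hm]
    exact h5 m hm)
  have hF : ∀ n, (u n).1 ∈ FS 0 := fun n => (hu n).1
  have hu' := fun n => (hu n).2 (fun m _ => hF m)
  set x : ℕ → L2 := fun n => (u n).1 with hx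
  have hlt : ∀ m n, m < n → (inner ℂ (x m) (x n) : ℂ) = 0 := fun m n hmn =>
    ((hu' n).2.2.2.2 m hmn).1
  have hon : Orthonormal ℂ x := by
    refine ⟨fun n => (hu' n).1, fun m n hmn => ?_⟩
    rcases lt_or_gt_of_ne hmn with h | h
    · exact hlt m n h
    · rw [← inner_conj_symm, hlt n m h, map_zero]
  set V := (iso x hon).toContinuousLinearMap with hV
  set V' := ContinuousLinearMap.adjoint V with hV'
  have hVV : ∀ z, V' (V z) = z := by
    intro z
    apply ext_inner_right ℂ
    intro w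
    rw [hV', ContinuousLinearMap.adjoint_inner_left]
    show inner ℂ (iso x hon z) (iso x hon w) = _
    rw [LinearIsometry.inner_map_map]
  have hVe : ∀ m, V (lp.single 2 m 1) = x m := by
    intro m
    show iso x hon _ = _
    rw [iso_single, one_smul]
  have hcoord : ∀ z m, (V' z) m = inner ℂ (x m) z := by
    intro z m
    have h1 : (inner ℂ (lp.single 2 m (1 : ℂ) : L2) (V' z) : ℂ) = inner ℂ (1 : ℂ) ((V' z) m) := by
      rw [lp.inner_single_left]
    have h2 : (inner ℂ (1 : ℂ) ((V' z) m) : ℂ) = (V' z) m := by simp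
    rw [← h2, ← h1, hV', ContinuousLinearMap.adjoint_inner_right, hVe]
  refine ⟨V * V', fun n hn => ?_⟩
  set b := V * V' with hb
  have hbx : ∀ m, b (x m) = x m := by
    intro m
    rw [hb, mul_apply_eq_comp]
    conv_lhs => rw [← hVe m, hVV]
    exact hVe m
  set z := a n (x n) with hz
  set c : ℂ := inner ℂ (x n) z with hc
  set z' := z - c • x n with hz'
  have hbz' : ‖b z'‖ ≤ 2 * (η / 8) := by
    have h1 : ‖b z'‖ = ‖V' z'‖ := by
      rw [hb, mul_apply_eq_comp]
      show ‖iso x hon (V' z')‖ = _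
      rw [LinearIsometry.norm_map]
    rw [h1]
    apply norm_le_of_coord_bound
    intro m
    rw [hcoord, hz', inner_sub_right, inner_smul_right]
    rcases lt_trichotomy m n with h | h | h
    · rw [hlt m n h, mul_zero, sub_zero, hz]
      refine (((hu' n).2.2.2.2 m h).2.2).trans ?_
      apply mul_le_mul_of_nonneg_left _ (by positivity)
      exact pow_le_pow_of_le_one (by norm_num) (by norm_num) h.le
    · subst h
      rw [inner_self_eq_norm_sq_to_K, (hon.1 m)]
      simp only [RCLike.ofReal_one, one_pow, mul_one, ← hc, sub_self, norm_zero]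
      positivity
    · have h2 : (inner ℂ (x m) (x n) : ℂ) = 0 := by
        rw [← inner_conj_symm, hlt n m h, map_zero]
      rw [h2, mul_zero, sub_zero, hz]
      exact ((hu' m).2.2.2.2 n h).2.1
  have hy1 : ‖(u n).2‖ ≤ 1 := (hu' n).2.1
  have hxy : (inner ℂ (u n).2 (x n) : ℂ) = 0 := by
    rw [← inner_conj_symm, (hu' n).2.2.1, map_zero]
  have hbig : η < ‖(inner ℂ (u n).2 z : ℂ)‖ := (hu' n).2.2.2.1 hn
  have hcomm : (a n * b - b * a n) (x n) = z - b z := by
    rw [sub_apply]
    show a n (b (x n)) - b (a n (x n)) = z - b z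
    rw [hbx]
  have hbz : b z = c • x n + b z' := by
    have : z = c • x n + z' := by rw [hz']; abel
    conv_lhs => rw [this]
    rw [map_add, map_smul, hbx]
  have h1 : (inner ℂ (u n).2 z : ℂ) = inner ℂ (u n).2 ((a n * b - b * a n) (x n)) +
      inner ℂ (u n).2 (b z') := by
    rw [hcomm, hbz, inner_sub_right, inner_add_right, inner_smul_right, hxy]
    ring
  have h2 : ‖(inner ℂ (u n).2 ((a n * b - b * a n) (x n)) : ℂ)‖ ≤ ‖a n * b - b * a n‖ := by
    refine (norm_inner_le_norm _ _).trans ?_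
    have h3 : ‖(a n * b - b * a n) (x n)‖ ≤ ‖a n * b - b * a n‖ * ‖x n‖ :=
      ContinuousLinearMap.le_opNorm _ _
    rw [hon.1 n, mul_one] at h3
    nlinarith [norm_nonneg (u n).2, norm_nonneg ((a n * b - b * a n) (x n)),
      norm_nonneg (a n * b - b * a n)]
  have h4 : ‖(inner ℂ (u n).2 (b z') : ℂ)‖ ≤ 2 * (η / 8) := by
    refine (norm_inner_le_norm _ _).trans ?_
    nlinarith [norm_nonneg (u n).2, norm_nonneg (b z')]
  have h5 : ‖(inner ℂ (u n).2 z : ℂ)‖ ≤ ‖a n * b - b * a n‖ + 2 * (η / 8) := by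
    rw [h1]
    exact (norm_add_le _ _).trans (add_le_add h2 h4)
  linarith

theorem tail_small (U : Ultrafilter ℕ) (a : ℕ → (L2 →L[ℂ] L2))
    (hcomm : ∀ b : L2 →L[ℂ] L2, Tendsto (fun n => ‖a n * b - b * a n‖) (U : Filter ℕ) (𝓝 0))
    (η : ℝ) (hη : 0 < η) : ∀ᶠ n in (U : Filter ℕ), ∃ j, g (a n) j ≤ η := by
  by_contra hcon
  rw [← Ultrafilter.eventually_not] at hcon
  obtain ⟨b, hb⟩ := test_operator a {n | ¬ ∃ j, g (a n) j ≤ η} η hη (by
    intro n hn j
    have h1 : η < g (a n) j := by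
      by_contra h'
      exact hn ⟨j, not_lt.mp h'⟩
    obtain ⟨r, hr, hr'⟩ := exists_lt_of_lt_csSup ⟨0, zero_mem_offSet _ _⟩ h1
    exact ⟨r, hr, hr'⟩)
  have h1 := (hcomm b).eventually (gt_mem_nhds (show (0 : ℝ) < η / 2 by positivity))
  obtain ⟨n, hn1, hn2⟩ := (hcon.and h1).exists
  have := hb n hn1
  linarith

/-- limit of the off-diagonal sizes -/
noncomputable def ginf (T : L2 →L[ℂ] L2) : ℝ := ⨅ j, g T j

theorem bddBelow_g (T : L2 →L[ℂ] L2) : BddBelow (Set.range (g T)) :=
  ⟨0, by rintro _ ⟨j, rfl⟩; exact g_nonneg T j⟩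

theorem ginf_le (T : L2 →L[ℂ] L2) (j : ℕ) : ginf T ≤ g T j := ciInf_le (bddBelow_g T) j

theorem ginf_nonneg (T : L2 →L[ℂ] L2) : 0 ≤ ginf T := le_ciInf (g_nonneg T)

theorem tendsto_ginf (T : L2 →L[ℂ] L2) : Tendsto (g T) atTop (𝓝 (ginf T)) :=
  tendsto_atTop_ciInf (g_anti T) (bddBelow_g T)

open Classical in
theorem flat_of_not_trivial (U : Ultrafilter ℕ) (h : ¬ TrivialCommutant U) : IsFlat U := by
  unfold TrivialCommutant at h
  push Not at h
  obtain ⟨a, ⟨C, hC⟩, hcomm, hns⟩ := h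
  -- the off-diagonal size is bounded below
  have hδ : ∃ δ > 0, ∀ᶠ n in (U : Filter ℕ), δ ≤ g (a n) 0 := by
    by_contra hcon
    replace hcon : ∀ δ > 0, ¬ ∀ᶠ n in (U : Filter ℕ), δ ≤ g (a n) 0 :=
      fun δ hδ h => hcon ⟨δ, hδ, h⟩
    have hsmall : Tendsto (fun n => g (a n) 0) (U : Filter ℕ) (𝓝 0) := by
      rw [Metric.tendsto_nhds]
      intro ε hε
      have h1 := hcon ε hε
      rw [← Ultrafilter.eventually_not] at h1
      filter_upwards [h1] with n hn
      rw [Real.dist_eq, sub_zero, abs_of_nonneg (g_nonneg _ _)]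
      exact not_le.mp hn
    set l : ℕ → ℂ := fun n =>
      inner ℂ (lp.single 2 0 (1 : ℂ) : L2) (a n (lp.single 2 0 (1 : ℂ))) with hl
    have hlb : ∀ n, l n ∈ Metric.closedBall (0 : ℂ) C := by
      intro n
      rw [mem_closedBall_zero_iff]
      refine (norm_inner_le_norm _ _).trans ?_
      rw [lp.norm_single (by norm_num), norm_one, one_mul]
      have := (a n).le_opNorm (lp.single 2 0 (1 : ℂ))
      rw [lp.norm_single (by norm_num), norm_one, mul_one] at this
      exact this.trans (hC n)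
    obtain ⟨c, _, hc⟩ := (isCompact_closedBall (0 : ℂ) C).ultrafilter_le_nhds
      (U.map l) (by
        rw [Ultrafilter.coe_map, le_principal_iff, mem_map]
        exact Filter.Eventually.of_forall (p := fun n => l n ∈ Metric.closedBall (0 : ℂ) C) hlb)
    apply hns c
    have hc' : Tendsto l (U : Filter ℕ) (𝓝 c) := hc
    have h1 : Tendsto (fun n => 8 * g (a n) 0 + ‖l n - c‖) (U : Filter ℕ) (𝓝 (8 * 0 + 0)) := by
      apply Tendsto.add (hsmall.const_mul 8)
      have := (hc'.sub_const c).norm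
      simpa using this
    rw [mul_zero, add_zero] at h1
    refine squeeze_zero (fun n => norm_nonneg _) (fun n => ?_) h1
    have h2 : a n - c • (1 : L2 →L[ℂ] L2) = (a n - l n • (1 : L2 →L[ℂ] L2)) +
        (l n - c) • (1 : L2 →L[ℂ] L2) := by
      rw [sub_smul]; abel
    rw [h2]
    refine (norm_add_le _ _).trans (add_le_add (near_scalar (a n)) ?_)
    rw [norm_smul]
    have : ‖(1 : L2 →L[ℂ] L2)‖ ≤ 1 := ContinuousLinearMap.norm_id_le
    nlinarith [norm_nonneg (l n - c)]
  obtain ⟨δ, hδ0, hδ⟩ := hδ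
  have hinf : ∀ᶠ n in (U : Filter ℕ), ginf (a n) ≤ δ / 2 := by
    filter_upwards [tail_small U a hcomm (δ / 2) (by positivity)] with n hn
    obtain ⟨j, hj⟩ := hn
    exact (ginf_le _ j).trans hj
  -- the slow functions
  set good : ℕ → Prop := fun n => δ / 2 ≤ g (a n) 0 - ginf (a n) with hgood
  have hgoodev : ∀ᶠ n in (U : Filter ℕ), good n := by
    filter_upwards [hδ, hinf] with n h1 h2
    show δ / 2 ≤ g (a n) 0 - ginf (a n)
    linarith
  refine ⟨fun n j => if good n then (g (a n) j - ginf (a n)) / (g (a n) 0 - ginf (a n))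
    else (if j = 0 then 1 else 0), ?_, ?_, ?_, ?_⟩
  · intro n j
    by_cases hn : good n
    · have hpos : 0 < g (a n) 0 - ginf (a n) := lt_of_lt_of_le (by positivity) hn
      simp only [hn, if_true]
      constructor
      · apply div_nonneg _ hpos.le
        linarith [ginf_le (a n) j]
      · rw [div_le_one hpos]
        linarith [g_anti (a n) (Nat.zero_le j)]
    · simp only [hn, if_false]
      split_ifs <;> norm_num
  · intro n
    by_cases hn : good n
    · have hpos : 0 < g (a n) 0 - ginf (a n) := lt_of_lt_of_le (by positivity) hn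
      simp only [hn, if_true]
      exact div_self hpos.ne'
    · simp [hn]
  · intro n
    by_cases hn : good n
    · simp only [hn, if_true]
      have h1 := ((tendsto_ginf (a n)).sub_const (ginf (a n))).div_const
        (g (a n) 0 - ginf (a n))
      simpa using h1
    · simp only [hn, if_false]
      apply tendsto_const_nhds.congr'
      filter_upwards [eventually_gt_atTop 0] with j hj
      rw [if_neg (by omega)]
  · intro f hf
    have h1 := (hcomm (sh f hf).toContinuousLinearMap).const_mul (2 / δ)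
    rw [mul_zero] at h1
    refine squeeze_zero' (Eventually.of_forall (fun n => ?_)) ?_ h1
    · exact Real.iSup_nonneg (fun j => abs_nonneg _)
    · filter_upwards [hgoodev] with n hn
      apply ciSup_le
      intro j
      have hpos : 0 < g (a n) 0 - ginf (a n) := lt_of_lt_of_le (by positivity) hn
      simp only [hn, if_true]
      rw [← sub_div, abs_div, abs_of_pos hpos]
      have h2 := g_slow (a n) f hf j
      have h3 : g (a n) (f j) ≤ g (a n) j := g_anti (a n) (hf.le_apply)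
      have h4 : |g (a n) j - ginf (a n) - (g (a n) (f j) - ginf (a n))| ≤
          ‖a n * (sh f hf).toContinuousLinearMap - (sh f hf).toContinuousLinearMap * a n‖ := by
        rw [abs_le]
        constructor
        · have := norm_nonneg (a n * (sh f hf).toContinuousLinearMap -
            (sh f hf).toContinuousLinearMap * a n)
          linarith
        · linarith
      rw [div_le_iff₀ hpos]
      refine h4.trans ?_
      set K := ‖a n * (sh f hf).toContinuousLinearMap - (sh f hf).toContinuousLinearMap * a n‖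
      have hK : 0 ≤ K := norm_nonneg _
      have h5 : (1 : ℝ) ≤ 2 / δ * (g (a n) 0 - ginf (a n)) := by
        rw [div_mul_eq_mul_div, le_div_iff₀ hδ0]
        have : δ / 2 ≤ g (a n) 0 - ginf (a n) := hn
        linarith
      nlinarith

/-- P-points. -/
def IsPPoint (U : Ultrafilter ℕ) : Prop :=
  ∀ A : ℕ → Set ℕ, (∀ k, A k ∈ U) → ∃ B ∈ U, ∀ k, (B \ A k).Finite

theorem not_flat_of_ppoint (U : Ultrafilter ℕ) (hP : IsPPoint U) : ¬ IsFlat U := by
  rintro ⟨h, h01, h0, hlim, hslow⟩
  -- for each k the values up to k are eventually near one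
  have hA : ∀ k, {n | ∀ i ≤ k, 3 / 4 ≤ h n i} ∈ U := by
    intro k
    have hk : ∀ i, ∀ᶠ n in (U : Filter ℕ), 3 / 4 ≤ h n i := by
      intro i
      by_cases hi : i = 0
      · subst hi
        exact Eventually.of_forall (fun n => by rw [h0 n]; norm_num)
      have hf : StrictMono (fun j : ℕ => j + i) := fun a b hab => by
        show a + i < b + i
        omega
      have h1 := (hslow _ hf).eventually (ge_mem_nhds (show (0 : ℝ) < 1 / 4 by norm_num))
      filter_upwards [h1] with n hn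
      have h2 := (le_ciSup (bdd_diff (h01 n) (fun j : ℕ => j + i)) 0).trans hn
      simp only [zero_add, h0 n] at h2
      have := (abs_le.mp h2).2
      linarith
    have h2 : ∀ᶠ n in (U : Filter ℕ), ∀ i ∈ Finset.range (k + 1), 3 / 4 ≤ h n i :=
      (Finset.eventually_all _).mpr (fun i _ => hk i)
    filter_upwards [h2] with n hn i hi
    exact hn i (Finset.mem_range.mpr (by omega))
  obtain ⟨B, hB, hfin⟩ := hP _ hA
  -- beyond m n the values are small
  have hm : ∀ n, ∃ m, ∀ i ≥ m, h n i ≤ 1 / 4 := by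
    intro n
    have := (hlim n).eventually (ge_mem_nhds (show (0 : ℝ) < 1 / 4 by norm_num))
    rw [eventually_atTop] at this
    exact this
  choose m hm using hm
  set f : ℕ → ℕ := fun j => j + ∑ i ∈ Finset.range (j + 2),
    ∑ n ∈ (hfin i).toFinset, m n with hf
  have hfm : StrictMono f := by
    apply strictMono_nat_of_lt_succ
    intro j
    have h1 := Finset.sum_range_succ (fun i => ∑ n ∈ (hfin i).toFinset, m n) (j + 2)
    show j + ∑ i ∈ Finset.range (j + 2), ∑ n ∈ (hfin i).toFinset, m n <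
      (j + 1) + ∑ i ∈ Finset.range (j + 2 + 1), ∑ n ∈ (hfin i).toFinset, m n
    omega
  have hbad : ∀ n ∈ B, 1 / 2 ≤ ⨆ j, |h n j - h n (f j)| := by
    intro n hn
    -- the first k for which n is not in A k
    have hex : ∃ k, ¬ 3 / 4 ≤ h n k := by
      refine ⟨m n, ?_⟩
      have := hm n (m n) le_rfl
      rw [not_le]
      linarith
    classical
    set k := Nat.find hex with hk
    have hk1 : ¬ 3 / 4 ≤ h n k := Nat.find_spec hex
    have hk0 : 0 < k := by
      rw [Nat.pos_iff_ne_zero]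
      intro h'
      apply hk1
      rw [h', h0 n]
      norm_num
    have hk2 : 3 / 4 ≤ h n (k - 1) := by
      have := Nat.find_min hex (m := k - 1) (by omega)
      exact not_not.mp this
    have hnmem : n ∈ (hfin k).toFinset := by
      rw [Set.Finite.mem_toFinset]
      exact ⟨hn, fun h' => hk1 (h' k le_rfl)⟩
    have hmn : m n ≤ f (k - 1) := by
      have h1 : m n ≤ ∑ n ∈ (hfin k).toFinset, m n :=
        Finset.single_le_sum (f := m) (fun _ _ => Nat.zero_le _) hnmem
      have h2 : ∑ n ∈ (hfin k).toFinset, m n ≤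
          ∑ i ∈ Finset.range (k + 1), ∑ n ∈ (hfin i).toFinset, m n :=
        Finset.single_le_sum (f := fun i => ∑ n ∈ (hfin i).toFinset, m n)
          (fun _ _ => Nat.zero_le _) (Finset.self_mem_range_succ k)
      have h3 : k - 1 + 2 = k + 1 := by omega
      simp only [hf]
      rw [h3]
      omega
    have h4 := hm n (f (k - 1)) hmn
    refine le_trans ?_ (le_ciSup (bdd_diff (h01 n) f) (k - 1))
    refine le_trans ?_ (le_abs_self _)
    linarith
  have h1 := (hslow f hfm).eventually (gt_mem_nhds (show (0 : ℝ) < 1 / 2 by norm_num))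
  obtain ⟨n, hn1, hn2⟩ := ((show ∀ᶠ n in (U : Filter ℕ), n ∈ B from hB).and h1).exists
  have := hbad n hn1
  linarith

end Pool.Agent.H86.Comm
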