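import Pool.Agent.H86.BallDefs

open MeasureTheory Set Metric Filter Topology

namespace Pool.Agent.H86

/-- Let a group `G` act faithfully on a compact metric space `X`, with the compact-open topology, and
suppose that a compact group acts through `G` transitively on some infinite `G`-invariant set.
Then `G` is the union of a meager set and a Haar null set. -/
theorem exists_meagre_union_haarNull {X : Type*} [MetricSpace X] [CompactSpace X]
    {G : Type*} [Group G] [TopologicalSpace G] (c : G → C(X, X)) (hc : IsInducing c)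
    (hmul : ∀ g h : G, c (g * h) = (c g).comp (c h)) (hone : c 1 = ContinuousMap.id X)
    (S : Set X) (hS : S.Infinite) (hGS : ∀ g : G, ∀ x ∈ S, c g x ∈ S)
    {K : Type*} [Group K] [TopologicalSpace K] [IsTopologicalGroup K] [CompactSpace K]
    (ρ : K →* G) (hρc : Continuous ρ)
    (htrans : ∀ x ∈ S, ∀ y ∈ S, ∃ k, c (ρ k) x = y) :
    ∃ M N : Set G, IsMeagre M ∧ IsHaarNull N ∧ M ∪ N = univ := by
  classical
  have hmulx : ∀ (g h : G) (x : X), c (g * h) x = c g (c h x) := fun g h x => by
    rw [hmul]; rfl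
  have hinj : ∀ g : G, Function.Injective (c g) := by
    intro g x y hxy
    have h1 : ∀ z, c g⁻¹ (c g z) = z := by
      intro z
      rw [← hmulx, inv_mul_cancel, hone]; rfl
    rw [← h1 x, hxy, h1 y]
  have _ : SecondCountableTopology G := hc.secondCountableTopology
  let mG : MeasurableSpace G := borel G
  have _ : BorelSpace G := ⟨rfl⟩
  let mK : MeasurableSpace K := borel K
  have _ : BorelSpace K := ⟨rfl⟩
  -- evaluations are continuous
  have heval : ∀ x : X, Continuous fun f : G => c f x := fun x =>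
    (continuous_eval_const (F := C(X, X)) x).comp hc.continuous
  -- Haar probability measure
  let ν : Measure K := Measure.haarMeasure (⊤ : TopologicalSpace.PositiveCompacts K)
  have hν : ν univ = 1 := by
    have := Measure.haarMeasure_self (K₀ := (⊤ : TopologicalSpace.PositiveCompacts K))
    simpa using this
  have _ : IsProbabilityMeasure ν := ⟨hν⟩
  -- a sequence of distinct points
  let x : ℕ → X := fun i => ((Set.Infinite.natEmbedding S hS) i : X)
  have hxinj : Function.Injective x := fun i j hij =>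
    (Set.Infinite.natEmbedding S hS).injective (Subtype.ext hij)
  have hxS : ∀ i, x i ∈ S := fun i => ((Set.Infinite.natEmbedding S hS) i).2
  -- a dense sequence
  obtain ⟨f, hf⟩ := TopologicalSpace.exists_dense_seq G
  -- separation
  have hsep : ∀ j N : ℕ, ∃ ε : ℝ, 0 < ε ∧ ∀ i ∈ Finset.range N, ∀ i' ∈ Finset.range N, i ≠ i' →
      Disjoint (ball (c (f j) (x i)) ε) (ball (c (f j) (x i')) ε) := by
    intro j N
    have h1 : ∀ᶠ ε : ℝ in 𝓝[>] 0, ∀ i ∈ Finset.range N, ∀ i' ∈ Finset.range N, i ≠ i' →
        Disjoint (ball (c (f j) (x i)) ε) (ball (c (f j) (x i')) ε) := by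
      rw [Filter.eventually_all_finset]
      intro i _
      rw [Filter.eventually_all_finset]
      intro i' _
      by_cases hii : i = i'
      · exact Eventually.of_forall fun _ h => absurd hii h
      · have hd : 0 < dist (c (f j) (x i)) (c (f j) (x i')) :=
          dist_pos.2 fun h => hii (hxinj (hinj (f j) h))
        have h2 : ∀ᶠ ε : ℝ in 𝓝[>] 0, ε < dist (c (f j) (x i)) (c (f j) (x i')) / 2 :=
          nhdsWithin_le_nhds (gt_mem_nhds (by linarith))
        filter_upwards [h2] with ε hε _
        exact ball_disjoint_ball (by linarith)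
    obtain ⟨ε, hε1, hε2⟩ := (h1.and self_mem_nhdsWithin).exists
    exact ⟨ε, hε2, hε1⟩
  choose ε hε0 hεd using hsep
  let U : ℕ → ℕ → Set G := fun j N =>
    {f' | ∀ i ∈ Finset.range N, dist (c f' (x i)) (c (f j) (x i)) < ε j N}
  have hUopen : ∀ j N, IsOpen (U j N) := by
    intro j N
    have : U j N = ⋂ i ∈ Finset.range N,
        {f' : G | dist (c f' (x i)) (c (f j) (x i)) < ε j N} := by
      ext f'; simp [U]
    rw [this]
    refine isOpen_biInter_finset fun i _ => ?_
    exact isOpen_lt ((heval (x i)).dist continuous_const) continuous_const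
  have hUmem : ∀ j N, f j ∈ U j N := by
    intro j N i _
    simpa using hε0 j N
  -- the random element
  let Φ : K → G := fun k => ρ k⁻¹
  have hΦc : Continuous Φ := hρc.comp continuous_inv
  -- the law of `ρ k⁻¹ y` does not depend on `y ∈ S`
  have hlaw : ∀ y ∈ S, ∀ y' ∈ S, ∀ W : Set X,
      ν {k | c (ρ k⁻¹) y ∈ W} = ν {k | c (ρ k⁻¹) y' ∈ W} := by
    intro y hy y' hy' W
    obtain ⟨k₀, hk₀⟩ := htrans y' hy' y hy
    have h1 := measure_preimage_mul ν k₀⁻¹ {k | c (ρ k⁻¹) y' ∈ W}
    rw [← h1]
    congr 1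
    ext k
    simp only [Set.mem_ofPred_eq, mem_preimage, mul_inv_rev, inv_inv, map_mul]
    rw [hmulx, hk₀]
  -- the key bound
  have hbound : ∀ (j N : ℕ) (g h : G), (N : ENNReal) * ν {k | g * Φ k * h ∈ U j N} ≤ 1 := by
    intro j N g h
    let W : ℕ → Set X := fun i => {z | c g z ∈ ball (c (f j) (x i)) (ε j N)}
    have hWopen : ∀ i, IsOpen (W i) := fun i => isOpen_ball.preimage (c g).continuous
    let A : ℕ → Set K := fun i => {k | c (ρ k⁻¹) (x 0) ∈ W i}
    have hAmeas : ∀ i, MeasurableSet (A i) := by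
      intro i
      have hcont : Continuous fun k : K => c (ρ k⁻¹) (x 0) := (heval (x 0)).comp hΦc
      exact ((hWopen i).preimage hcont).measurableSet
    have hsub : ∀ i ∈ Finset.range N, ν {k | g * Φ k * h ∈ U j N} ≤ ν (A i) := by
      intro i hi
      have hhx : c h (x i) ∈ S := hGS h (x i) (hxS i)
      rw [← hlaw _ hhx _ (hxS 0) (W i)]
      refine measure_mono fun k hk => ?_
      have h1 : dist (c (g * Φ k * h) (x i)) (c (f j) (x i)) < ε j N := hk i hi
      rw [hmulx, hmulx] at h1
      exact h1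
    calc (N : ENNReal) * ν {k | g * Φ k * h ∈ U j N}
        = ∑ i ∈ Finset.range N, ν {k | g * Φ k * h ∈ U j N} := by simp
      _ ≤ ∑ i ∈ Finset.range N, ν (A i) := Finset.sum_le_sum hsub
      _ = ν (⋃ i ∈ Finset.range N, A i) := by
        refine (measure_biUnion_finset ?_ fun i _ => hAmeas i).symm
        intro i hi i' hi' hne
        have := hεd j N i hi i' hi' hne
        rw [Function.onFun, Set.disjoint_left]
        intro k hk hk'
        exact (Set.disjoint_left.1 this) hk hk'
      _ ≤ 1 := prob_le_one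
  -- the comeager Haar null set
  let B : Set G := ⋂ m : ℕ, ⋃ j : ℕ, U j (2 ^ (j + m))
  have hBmeas : MeasurableSet B :=
    MeasurableSet.iInter fun m => MeasurableSet.iUnion fun j => (hUopen _ _).measurableSet
  have hBnull : ∀ g h : G, ν {k | g * Φ k * h ∈ B} = 0 := by
    intro g h
    have h1 : ∀ m : ℕ, ν {k | g * Φ k * h ∈ B} ≤ 2 * (2 : ENNReal)⁻¹ ^ m := by
      intro m
      calc ν {k | g * Φ k * h ∈ B} ≤ ν (⋃ j, {k | g * Φ k * h ∈ U j (2 ^ (j + m))}) := by
            refine measure_mono fun k hk => ?_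
            have := mem_iInter.1 hk m
            simpa using this
        _ ≤ ∑' j, ν {k | g * Φ k * h ∈ U j (2 ^ (j + m))} := measure_iUnion_le _
        _ ≤ ∑' j, (2 : ENNReal)⁻¹ ^ m * (2 : ENNReal)⁻¹ ^ j := by
            refine ENNReal.tsum_le_tsum fun j => ?_
            have h2 := hbound j (2 ^ (j + m)) g h
            have h3 : ((2 : ENNReal)⁻¹ ^ m * (2 : ENNReal)⁻¹ ^ j)
                = ((2 ^ (j + m) : ℕ) : ENNReal)⁻¹ := by
              rw [← pow_add, add_comm m j, ← ENNReal.inv_pow]
              simp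
            rw [h3, ENNReal.le_inv_iff_mul_le, mul_comm]
            exact h2
        _ = 2 * (2 : ENNReal)⁻¹ ^ m := by
            rw [ENNReal.tsum_mul_left, ENNReal.tsum_geometric_two, mul_comm]
    have h2 : Tendsto (fun m : ℕ => 2 * (2 : ENNReal)⁻¹ ^ m) atTop (𝓝 0) := by
      have h3 : Tendsto (fun m : ℕ => (2 : ENNReal)⁻¹ ^ m) atTop (𝓝 0) :=
        ENNReal.tendsto_pow_atTop_nhds_zero_of_lt_one (by norm_num)
      have h4 := ENNReal.Tendsto.const_mul (a := 2) h3 (Or.inr (by norm_num))
      simpa using h4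
    exact le_antisymm (ge_of_tendsto' h2 h1) zero_le
  refine ⟨Bᶜ, B, ?_, ⟨B, Subset.rfl, hBmeas, Measure.map Φ ν, ?_, ?_⟩, compl_union_self B⟩
  · -- meagre
    rw [IsMeagre, compl_compl]
    refine countable_iInter_mem.2 fun m => residual_of_dense_open
      (isOpen_iUnion fun j => hUopen _ _) (hf.mono ?_)
    rintro _ ⟨j, rfl⟩
    exact mem_iUnion.2 ⟨j, hUmem _ _⟩
  · exact Measure.isProbabilityMeasure_map hΦc.measurable.aemeasurable
  · intro g h
    have hT : Continuous fun x : G => g⁻¹ * x * h⁻¹ := by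
      rw [hc.continuous_iff]
      have h1 : Continuous fun F : C(X, X) => (c g⁻¹).comp (F.comp (c h⁻¹)) :=
        (ContinuousMap.continuous_postcomp _).comp (ContinuousMap.continuous_precomp _)
      have h2 := h1.comp hc.continuous
      refine h2.congr fun x => ?_
      simp only [Function.comp]
      rw [hmul, hmul, ContinuousMap.comp_assoc]
    have him : (fun x : G => g * x * h) '' B = (fun x : G => g⁻¹ * x * h⁻¹) ⁻¹' B := by
      ext z
      constructor
      · rintro ⟨b, hb, rfl⟩
        simpa [mul_assoc] using hb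
      · intro hz
        exact ⟨g⁻¹ * z * h⁻¹, hz, by simp [mul_assoc]⟩
    rw [him, Measure.map_apply hΦc.measurable (hT.measurable hBmeas)]
    exact hBnull g⁻¹ h⁻¹

end Pool.Agent.H86
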