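import Pool.Agent.H37.MHD.Defs2

/-!
# MP_59296a_an, module M5b1: cut-off function and the compact region
-/

open MeasureTheory Set Filter Topology
open scoped ContDiff
open H36.MHD

noncomputable section

namespace H37.MHD

variable {B : Bg}

theorem SS_smooth (B : Bg) : ContDiff ℝ ∞ (SS B) := by
  have h1 : ContDiff ℝ ∞ (fun z : X => th z.1) := by
    unfold th
    fun_prop
  have h2 : ∀ k, ContDiff ℝ ∞ (fun z : X => B.w k z.2) :=
    fun k => (B.w_smooth k).comp contDiff_snd
  unfold SS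
  exact (h1.pow 2).mul (ContDiff.sum fun k _ => (h2 k).pow 2)

theorem exists_cutoff (B : Bg) (sp : ℝ) (hs : 0 < sp) : ∃ chi : X → ℝ, ContDiff ℝ ∞ chi ∧
    (∀ z, 0 ≤ chi z ∧ chi z ≤ 1) ∧
    (∀ z, chi z ≠ 0 → sp ^ 2 ≤ SS B z ∧ |z.1| ≤ 5 / 4 * B.T) ∧
    (∀ z, |z.1| ≤ B.T → 4 * sp ^ 2 ≤ SS B z → chi z = 1) := by
  have hT := B.hT
  have hsp : 0 < 3 * sp ^ 2 := by positivity
  have hTT : 0 < 9 / 16 * B.T ^ 2 := by positivity
  refine ⟨fun z => Real.smoothTransition ((SS B z - sp ^ 2) / (3 * sp ^ 2)) *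
    Real.smoothTransition ((25 / 16 * B.T ^ 2 - z.1 ^ 2) / (9 / 16 * B.T ^ 2)), ?_, ?_, ?_, ?_⟩
  · refine ContDiff.mul ?_ ?_
    · exact Real.smoothTransition.contDiff.comp
        (((SS_smooth B).sub contDiff_const).div_const _)
    · refine Real.smoothTransition.contDiff.comp ?_
      exact ((contDiff_const.sub (contDiff_fst.pow 2)).div_const _)
  · intro z
    have a := Real.smoothTransition.nonneg ((SS B z - sp ^ 2) / (3 * sp ^ 2))
    have b := Real.smoothTransition.nonneg ((25 / 16 * B.T ^ 2 - z.1 ^ 2) / (9 / 16 * B.T ^ 2))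
    have a' := Real.smoothTransition.le_one ((SS B z - sp ^ 2) / (3 * sp ^ 2))
    have b' := Real.smoothTransition.le_one ((25 / 16 * B.T ^ 2 - z.1 ^ 2) / (9 / 16 * B.T ^ 2))
    exact ⟨mul_nonneg a b, mul_le_one₀ a' b b'⟩
  · intro z hz
    simp only [ne_eq, mul_eq_zero, not_or] at hz
    constructor
    · by_contra hlt
      refine hz.1 (Real.smoothTransition.zero_of_nonpos ?_)
      exact div_nonpos_of_nonpos_of_nonneg (by linarith) hsp.le
    · by_contra hlt
      refine hz.2 (Real.smoothTransition.zero_of_nonpos ?_)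
      refine div_nonpos_of_nonpos_of_nonneg ?_ hTT.le
      have h1 : (5 / 4 * B.T) ^ 2 ≤ |z.1| ^ 2 :=
        pow_le_pow_left₀ (by positivity) (not_le.1 hlt).le 2
      rw [sq_abs] at h1
      nlinarith
  · intro z hz hS
    have h1 : Real.smoothTransition ((SS B z - sp ^ 2) / (3 * sp ^ 2)) = 1 := by
      refine Real.smoothTransition.one_of_one_le ?_
      rw [le_div_iff₀ hsp]
      linarith
    have h2 : Real.smoothTransition
        ((25 / 16 * B.T ^ 2 - z.1 ^ 2) / (9 / 16 * B.T ^ 2)) = 1 := by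
      refine Real.smoothTransition.one_of_one_le ?_
      rw [le_div_iff₀ hTT]
      have h3 : |z.1| ^ 2 ≤ B.T ^ 2 := pow_le_pow_left₀ (abs_nonneg _) hz 2
      rw [sq_abs] at h3
      linarith
    simp only [h1, h2, mul_one]

/-- `S > 0` forces `x` into the ball. -/
theorem mem_ball_of_SS_pos (B : Bg) (z : X) (h : 0 < SS B z) : ‖z.2 - B.x0‖ ≤ B.r := by
  by_contra hlt
  have hw : ∀ k, B.w k z.2 = 0 := by
    intro k
    by_contra hne
    exact hlt (B.w_supp k z.2 hne)
  have : SS B z = 0 := by simp [SS, hw]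
  exact absurd h (by rw [this]; exact lt_irrefl _)

theorem isCompact_region (B : Bg) (sp : ℝ) (hs : 0 < sp) :
    IsCompact {z : X | sp ^ 2 ≤ SS B z ∧ |z.1| ≤ 5 / 4 * B.T} := by
  have hc : IsCompact (Icc (-(5 / 4 * B.T)) (5 / 4 * B.T) ×ˢ Metric.closedBall B.x0 B.r) :=
    isCompact_Icc.prod (isCompact_closedBall _ _)
  refine hc.of_isClosed_subset ?_ ?_
  · refine IsClosed.inter ?_ ?_
    · exact isClosed_le continuous_const (SS_smooth B).continuous
    · exact isClosed_le (continuous_abs.comp continuous_fst) continuous_const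
  · rintro z ⟨h1, h2⟩
    refine ⟨abs_le.1 h2, ?_⟩
    rw [Metric.mem_closedBall, dist_eq_norm]
    exact mem_ball_of_SS_pos B z (lt_of_lt_of_le (by positivity) h1)

end H37.MHD
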