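import Mathlib

open MeasureTheory Set Metric Filter Topology

namespace Pool.Agent.H86

/-- The closed unit ball of Euclidean `n`-space. -/
abbrev CBall (n : ℕ) : Type := Metric.closedBall (0 : EuclideanSpace ℝ (Fin n)) 1

abbrev SO (n : ℕ) : Type := Matrix.specialOrthogonalGroup (Fin n) ℝ

variable {n : ℕ}

lemma norm_toEuclideanLin_of_mem (A : Matrix (Fin n) (Fin n) ℝ)
    (hA : A ∈ Matrix.specialOrthogonalGroup (Fin n) ℝ) (x : EuclideanSpace ℝ (Fin n)) :
    ‖Matrix.toEuclideanLin A x‖ = ‖x‖ := by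
  have hA' : A ∈ unitary (Matrix (Fin n) (Fin n) ℝ) := (Matrix.mem_specialOrthogonalGroup_iff.1 hA).1
  have hu : Matrix.toEuclideanCLM (n := Fin n) (𝕜 := ℝ) A ∈
      unitary (EuclideanSpace ℝ (Fin n) →L[ℝ] EuclideanSpace ℝ (Fin n)) := by
    rw [Unitary.mem_iff] at hA' ⊢
    rw [← map_star, ← map_mul, ← map_mul, hA'.1, hA'.2, map_one]
    exact ⟨rfl, rfl⟩
  exact ContinuousLinearMap.norm_map_of_mem_unitary hu x

lemma toEuclideanLin_mul' (A B : Matrix (Fin n) (Fin n) ℝ) (x : EuclideanSpace ℝ (Fin n)) :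
    Matrix.toEuclideanLin (A * B) x = Matrix.toEuclideanLin A (Matrix.toEuclideanLin B x) := by
  apply (WithLp.equiv 2 _).injective
  simp [Matrix.mulVec_mulVec]

lemma toEuclideanLin_one' (x : EuclideanSpace ℝ (Fin n)) :
    Matrix.toEuclideanLin (1 : Matrix (Fin n) (Fin n) ℝ) x = x := by
  apply (WithLp.equiv 2 _).injective
  simp

lemma continuous_toEuclideanLin_uncurry :
    Continuous fun p : Matrix (Fin n) (Fin n) ℝ × EuclideanSpace ℝ (Fin n) =>
      Matrix.toEuclideanLin p.1 p.2 := by
  have h : Continuous fun p : Matrix (Fin n) (Fin n) ℝ × EuclideanSpace ℝ (Fin n) =>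
      WithLp.toLp 2 (p.1.mulVec (WithLp.ofLp p.2)) := by
    refine (PiLp.continuous_toLp 2 _).comp ?_
    refine Continuous.matrix_mulVec continuous_fst ?_
    exact (PiLp.continuous_ofLp 2 _).comp continuous_snd
  exact h

/-- The self-map of the closed unit ball given by a rotation. -/
noncomputable def rotFun (A : SO n) (x : CBall n) : CBall n :=
  ⟨Matrix.toEuclideanLin A.1 x.1, by
    rw [mem_closedBall_zero_iff, norm_toEuclideanLin_of_mem _ A.2]
    exact mem_closedBall_zero_iff.1 x.2⟩

lemma rotFun_coe (A : SO n) (x : CBall n) :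
    ((rotFun A x : CBall n) : EuclideanSpace ℝ (Fin n)) = Matrix.toEuclideanLin A.1 x.1 := rfl

lemma rotFun_mul (A B : SO n) (x : CBall n) : rotFun (A * B) x = rotFun A (rotFun B x) :=
  Subtype.ext (toEuclideanLin_mul' A.1 B.1 x.1)

lemma rotFun_one (x : CBall n) : rotFun (1 : SO n) x = x :=
  Subtype.ext (toEuclideanLin_one' x.1)

lemma continuous_rotFun : Continuous fun p : SO n × CBall n => rotFun p.1 p.2 := by
  refine Continuous.subtype_mk (f := fun p : SO n × CBall n => Matrix.toEuclideanLin p.1.1 p.2.1) ?_ _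
  exact continuous_toEuclideanLin_uncurry.comp
    ((continuous_subtype_val.comp continuous_fst).prodMk (continuous_subtype_val.comp continuous_snd))

lemma continuous_rotFun_right (A : SO n) : Continuous (rotFun A) := by
  have h : Continuous fun x : CBall n => (A, x) := by fun_prop
  have h2 := continuous_rotFun.comp h
  exact h2

/-- A rotation `A ∈ SO(n)` as a self-homeomorphism of the closed unit ball. -/
noncomputable def rotHomeo (A : SO n) : CBall n ≃ₜ CBall n where
  toFun := rotFun A
  invFun := rotFun A⁻¹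
  left_inv x := by rw [← rotFun_mul, inv_mul_cancel, rotFun_one]
  right_inv x := by rw [← rotFun_mul, mul_inv_cancel, rotFun_one]
  continuous_toFun := continuous_rotFun_right A
  continuous_invFun := continuous_rotFun_right A⁻¹

/-- The homomorphism from `SO(n)` to the self-homeomorphisms of the closed unit ball. -/
noncomputable def rotHom (n : ℕ) : SO n →* (CBall n ≃ₜ CBall n) where
  toFun := rotHomeo
  map_one' := Homeomorph.ext rotFun_one
  map_mul' A B := Homeomorph.ext (rotFun_mul A B)

lemma rotHom_apply (A : SO n) (x : CBall n) :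
    ((rotHom n A x : CBall n) : EuclideanSpace ℝ (Fin n)) = Matrix.toEuclideanLin A.1 x.1 := rfl

lemma continuous_rotHom : Continuous fun p : SO n × CBall n => rotHom n p.1 p.2 :=
  continuous_rotFun

instance : IsTopologicalGroup (SO n) where
  continuous_inv := by
    refine Continuous.subtype_mk (f := fun A : SO n => star A.1) ?_ _
    exact continuous_subtype_val.star

lemma isClosed_SO : IsClosed (Matrix.specialOrthogonalGroup (Fin n) ℝ : Set (Matrix (Fin n) (Fin n) ℝ)) := by
  have : (Matrix.specialOrthogonalGroup (Fin n) ℝ : Set (Matrix (Fin n) (Fin n) ℝ))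
      = {A | A * star A = 1} ∩ {A | A.det = 1} := by
    ext A
    rw [SetLike.mem_coe, Matrix.mem_specialOrthogonalGroup_iff, Matrix.mem_orthogonalGroup_iff]
    rfl
  rw [this]
  refine IsClosed.inter ?_ ?_
  · exact isClosed_eq (continuous_id.matrix_mul continuous_id.star) continuous_const
  · exact isClosed_eq continuous_id.matrix_det continuous_const

instance : CompactSpace (SO n) := by
  refine isCompact_iff_compactSpace.1 ?_
  have hc : IsCompact (Set.pi univ fun _ : Fin n => Set.pi univ fun _ : Fin n => Icc (-1 : ℝ) 1) :=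
    isCompact_univ_pi fun _ => isCompact_univ_pi fun _ => isCompact_Icc
  refine hc.of_isClosed_subset isClosed_SO ?_
  intro A hA i _ j _
  have h := entry_norm_bound_of_unitary (𝕜 := ℝ) (Matrix.mem_specialOrthogonalGroup_iff.1 hA).1 i j
  rw [Real.norm_eq_abs, abs_le] at h
  exact h


lemma exists_matrix_of_isometry (L : EuclideanSpace ℝ (Fin n) ≃ₗᵢ[ℝ] EuclideanSpace ℝ (Fin n)) :
    ∃ A ∈ Matrix.orthogonalGroup (Fin n) ℝ,
      (∀ x, Matrix.toEuclideanLin A x = L x) ∧ A.det = LinearMap.det (L.toLinearEquiv : EuclideanSpace ℝ (Fin n) →ₗ[ℝ] EuclideanSpace ℝ (Fin n)) := by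
  let b := EuclideanSpace.basisFun (Fin n) ℝ
  refine ⟨LinearMap.toMatrix b.toBasis b.toBasis (L.toLinearEquiv : EuclideanSpace ℝ (Fin n) →ₗ[ℝ] EuclideanSpace ℝ (Fin n)), ?_, ?_, ?_⟩
  · exact L.toMatrix_mem_unitaryGroup b b
  · intro x
    rw [Matrix.toEuclideanLin_eq_toLin_orthonormal, Matrix.toLin_toMatrix]
    rfl
  · rw [LinearMap.det_toMatrix]

lemma exists_rotation_sphere (hn : 2 ≤ n) (x y : EuclideanSpace ℝ (Fin n)) (hx : ‖x‖ = 1)
    (hy : ‖y‖ = 1) :
    ∃ A ∈ Matrix.specialOrthogonalGroup (Fin n) ℝ, Matrix.toEuclideanLin A x = y := by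
  obtain ⟨A, hA, hAL, hAd⟩ := exists_matrix_of_isometry (Submodule.reflection (ℝ ∙ (x - y))ᗮ)
  have hAx : Matrix.toEuclideanLin A x = y := by
    rw [hAL, Submodule.reflection_sub (by rw [hx, hy])]
  have hdet : A.det = 1 ∨ A.det = -1 := by
    have h := Matrix.det_of_mem_unitary hA
    rw [← sq_eq_one_iff]
    have h2 := (Unitary.mem_iff.1 h).1
    rw [star_trivial] at h2
    rw [sq]; exact h2
  rcases hdet with hd | hd
  · exact ⟨A, Matrix.mem_specialOrthogonalGroup_iff.2 ⟨hA, hd⟩, hAx⟩
  · -- choose e ⊥ y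
    obtain ⟨e, he0, hey⟩ : ∃ e : EuclideanSpace ℝ (Fin n), e ≠ 0 ∧ inner ℝ e y = 0 := by
      by_contra hcon
      push Not at hcon
      have htop : (ℝ ∙ y)ᗮ = ⊥ := by
        rw [Submodule.eq_bot_iff]
        intro e he
        by_contra he0
        exact hcon e he0 (by
          rw [real_inner_comm]
          exact (Submodule.mem_orthogonal_singleton_iff_inner_right.1 he))
      have h1 : (ℝ ∙ y) = ⊤ := by
        rw [← Submodule.orthogonal_orthogonal (ℝ ∙ y), htop, Submodule.bot_orthogonal_eq_top]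
      have h2 : Module.finrank ℝ (ℝ ∙ y) = 1 := finrank_span_singleton (by
        intro h; rw [h, norm_zero] at hy; norm_num at hy)
      rw [h1, finrank_top, finrank_euclideanSpace, Fintype.card_fin] at h2
      omega
    obtain ⟨C, hC, hCL, hCd⟩ := exists_matrix_of_isometry (Submodule.reflection (ℝ ∙ e)ᗮ)
    have hCy : Matrix.toEuclideanLin C y = y := by
      rw [hCL, Submodule.reflection_mem_subspace_eq_self]
      exact Submodule.mem_orthogonal_singleton_iff_inner_right.2 hey
    have hCdet : C.det = -1 := by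
      rw [hCd]
      have h1 := Submodule.det_reflection (K := (ℝ ∙ e)ᗮ)
      rw [Submodule.orthogonal_orthogonal, finrank_span_singleton he0, pow_one] at h1
      exact h1
    refine ⟨C * A, Matrix.mem_specialOrthogonalGroup_iff.2 ⟨mul_mem hC hA, ?_⟩, ?_⟩
    · rw [Matrix.det_mul, hCdet, hd]; norm_num
    · have : Matrix.toEuclideanLin (C * A) x = Matrix.toEuclideanLin C (Matrix.toEuclideanLin A x) := by
        apply (WithLp.equiv 2 _).injective
        simp [Matrix.mulVec_mulVec]
      rw [this, hAx, hCy]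


end Pool.Agent.H86
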